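import Pool.Agent.N830.VR.Stm

/-!
(AFF): the affine form of the theorem off a curve (helper712).
-/

set_option autoImplicit false

namespace Pool.Agent.N830.VR.PAFF

open MvPolynomial Height
open Pool.Agent.N830.VQ (fa both DD DD_hom eval_DD)
open Pool.Agent.W180.OP (Pl av wt nrm nrm_pos lam lam_eq liou wt_nonneg eval_smul_hom)

variable {k : Type} [Field k]

/-- the components of a polynomial on a line through the origin -/
theorem exists_scale [Infinite k] (Φ : MvPolynomial (Fin 3) k) (u : Fin 3 → k) (d : ℕ)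
    (hd : d ∈ Finset.range (Φ.totalDegree + 1)) (h : eval u (homogeneousComponent d Φ) ≠ 0) :
    ∃ c : k, c ≠ 0 ∧ eval (c • u) Φ ≠ 0 := by
  by_contra hcon
  push Not at hcon
  set g : Polynomial k := ∑ e ∈ Finset.range (Φ.totalDegree + 1),
    Polynomial.C (eval u (homogeneousComponent e Φ)) * Polynomial.X ^ e with hg
  have hev : ∀ c : k, Polynomial.eval c g = eval (c • u) Φ := by
    intro c
    conv_rhs => rw [← sum_homogeneousComponent Φ, map_sum]
    rw [hg, Polynomial.eval_finset_sum]
    refine Finset.sum_congr rfl fun e _ => ?_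
    rw [eval_smul_hom _ (homogeneousComponent_isHomogeneous e Φ)]
    simp
    ring
  have h0 : Polynomial.X * g = 0 := by
    refine Polynomial.funext fun c => ?_
    rw [Polynomial.eval_mul, Polynomial.eval_X, Polynomial.eval_zero, hev]
    by_cases hc : c = 0
    · rw [hc, zero_mul]
    · rw [hcon c hc, mul_zero]
  have hg0 : g = 0 := by
    rcases mul_eq_zero.1 h0 with h1 | h1
    · exact absurd h1 Polynomial.X_ne_zero
    · exact h1
  apply h
  have h2 : g.coeff d = eval u (homogeneousComponent d Φ) := by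
    rw [hg, Polynomial.finset_sum_coeff]
    rw [Finset.sum_eq_single_of_mem d hd]
    · simp
    · intro e _ hne
      rw [Polynomial.coeff_C_mul, Polynomial.coeff_X_pow, if_neg (Ne.symm hne), mul_zero]
  rw [← h2, hg0, Polynomial.coeff_zero]

/-- dehomogenization of a component -/
theorem dehom_ne [Infinite k] (F : MvPolynomial (Fin 3) k) (d : ℕ) (hF : F.IsHomogeneous d) (h : F ≠ 0) :
    aeval (![1, X 0, X 1] : Fin 3 → MvPolynomial (Fin 2) k) F ≠ 0 := by
  intro h0
  apply h
  have h1 : X 0 * F = 0 := by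
    refine MvPolynomial.funext fun p => ?_
    rw [map_mul, eval_X, map_zero]
    by_cases hp : p 0 = 0
    · rw [hp, zero_mul]
    · have h2 : eval (![1, p 1 / p 0, p 2 / p 0] : Fin 3 → k) F = 0 := by
        have h3 := congrArg (eval (![p 1 / p 0, p 2 / p 0] : Fin 2 → k)) h0
        rw [map_zero] at h3
        rw [← h3, ← coe_aeval_eq_eval, ← coe_aeval_eq_eval]
        change aeval _ F = aeval _ (aeval _ F)
        rw [← AlgHom.comp_apply, comp_aeval]
        congr 2
        funext j
        fin_cases j <;> simp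
      have h4 : p = p 0 • (![1, p 1 / p 0, p 2 / p 0] : Fin 3 → k) := by
        funext j
        fin_cases j
        · simp
        · simp; field_simp
        · simp; field_simp
      rw [h4, eval_smul_hom F hF, h2, mul_zero, mul_zero]
  rcases mul_eq_zero.1 h1 with h2 | h2
  · exact absurd h2 (X_ne_zero 0)
  · exact h2

theorem eval_dehom (F : MvPolynomial (Fin 3) k) (x : Fin 2 → k) :
    eval x (aeval (![1, X 0, X 1] : Fin 3 → MvPolynomial (Fin 2) k) F) = eval ![1, x 0, x 1] F := by
  rw [← coe_aeval_eq_eval, ← coe_aeval_eq_eval]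
  change aeval _ (aeval _ F) = aeval _ F
  rw [← AlgHom.comp_apply, comp_aeval]
  congr 2
  funext j
  fin_cases j <;> simp

theorem nrm_smul (f : AbsoluteValue k ℝ) {n : ℕ} (c : k) (x : Fin n → k) : nrm f (c • x) = f c * nrm f x := by
  unfold nrm
  rw [Real.mul_iSup_of_nonneg (f.nonneg c)]
  simp

end Pool.Agent.N830.VR.PAFF

namespace Pool.Agent.N830.VR

open MvPolynomial Height
open Pool.Agent.N830.VQ (fa both DD DD_hom eval_DD)
open Pool.Agent.W180.OP (Pl av wt nrm nrm_pos lam lam_eq liou wt_nonneg eval_smul_hom)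
open Pool.Agent.N830.VR.PAFF

/-- (AFF) -/
theorem aff : S_AFF := by
  intro k K _ _ _ _ _ q a ha hd R hR ε hε
  obtain ⟨Φ, hΦ0, hΦ⟩ := (both a ha hd R hR).1 ε hε
  obtain ⟨CL, hCL0, hCL⟩ := liou (DD k) 2 DD_hom
  -- a nonzero component
  obtain ⟨d, hdm, hd0⟩ : ∃ d ∈ Finset.range (Φ.totalDegree + 1), homogeneousComponent d Φ ≠ 0 := by
    refine Finset.exists_ne_zero_of_sum_ne_zero ?_
    rw [sum_homogeneousComponent]
    exact hΦ0
  refine ⟨aeval (![1, X 0, X 1] : Fin 3 → MvPolynomial (Fin 2) k) (homogeneousComponent d Φ),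
    dehom_ne _ d (homogeneousComponent_isHomogeneous d Φ) hd0, fun S => ?_⟩
  obtain ⟨C, hC⟩ := hΦ S
  refine ⟨C + CL / 2, fun x hx hRx hDx => ?_⟩
  rw [eval_dehom] at hx
  set u : Fin 3 → k := ![1, x 0, x 1] with hu
  have hu0 : u ≠ 0 := by
    intro h
    have := congrFun h 0
    simp [hu] at this
  have hDu : eval u (DD k) = x 0 ^ 2 - 4 * x 1 := by
    rw [eval_DD]; simp [hu]
  obtain ⟨c, hc, hcu⟩ := exists_scale Φ u d hdm hx
  -- scaling
  have hRc : R (c • u) = c ^ q * R u := by
    apply FaithfulSMul.algebraMap_injective k K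
    rw [hR, map_mul, map_pow, hR]
    have h1 : ∀ i, fa (fun j => algebraMap k K ((c • u) j)) (a i) =
        algebraMap k K c * fa (fun j => algebraMap k K (u j)) (a i) := by
      intro i
      simp only [fa, Pi.smul_apply, smul_eq_mul, map_mul]
      ring
    rw [Finset.prod_congr rfl fun i _ => h1 i, Finset.prod_mul_distrib]
    simp
  have hDc : eval (c • u) (DD k) = c ^ 2 * eval u (DD k) := eval_smul_hom _ DD_hom c u
  have hDu0 : eval u (DD k) ≠ 0 := by rw [hDu]; exact hDx
  have hmain := hC (c • u) hcu (by rw [hRc]; exact mul_ne_zero (pow_ne_zero _ hc) hRx)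
    (by rw [hDc]; exact mul_ne_zero (pow_ne_zero _ hc) hDu0)
  rw [Height.logHeight_smul_eq_logHeight u hc] at hmain
  have hinv : ∀ v : Pl k, wt v * ((q * Real.log (nrm (av v) (c • u)) - Real.log (av v (R (c • u)))) +
      (2 * Real.log (nrm (av v) (c • u)) - Real.log (av v (eval (c • u) (DD k)))) / 2) =
      wt v * ((q * Real.log (nrm (av v) u) - Real.log (av v (R u))) +
      (2 * Real.log (nrm (av v) u) - Real.log (av v (eval u (DD k)))) / 2) := by
    intro v
    have p1 : 0 < av v c := (av v).pos hc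
    have p2 : 0 < nrm (av v) u := nrm_pos _ hu0
    have p3 : 0 < av v (R u) := (av v).pos hRx
    have p4 : 0 < av v (eval u (DD k)) := (av v).pos hDu0
    rw [PAFF.nrm_smul, hRc, hDc, map_mul, map_mul, map_pow, map_pow, Real.log_mul p1.ne' p2.ne',
      Real.log_mul (pow_ne_zero _ p1.ne') p3.ne', Real.log_mul (pow_ne_zero _ p1.ne') p4.ne',
      Real.log_pow, Real.log_pow]
    push_cast
    ring
  rw [Finset.sum_congr rfl fun v _ => hinv v] at hmain
  have hli := hCL S u hu0 hDu0
  have hhalf : ∑ v ∈ S, wt v * ((2 * Real.log (nrm (av v) u) - Real.log (av v (eval u (DD k)))) / 2) ≤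
      (2 * logHeight u + CL) / 2 := by
    have e1 : ∑ v ∈ S, wt v * ((2 * Real.log (nrm (av v) u) - Real.log (av v (eval u (DD k)))) / 2) ≤
        ∑ v ∈ S, (wt v * max 0 (lam (av v) 2 (DD k) u)) / 2 := by
      refine Finset.sum_le_sum fun v _ => ?_
      have e2 := lam_eq (av v) 2 (DD k) hu0 hDu0
      push_cast at e2
      rw [← e2, ← mul_div_assoc]
      refine div_le_div_of_nonneg_right ?_ (by norm_num)
      exact mul_le_mul_of_nonneg_left (le_max_right _ _) (wt_nonneg v)
    rw [← Finset.sum_div] at e1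
    push_cast at hli
    linarith
  have hsplit : ∀ v : Pl k, wt v * ((q * Real.log (nrm (av v) u) - Real.log (av v (R u))) +
      (2 * Real.log (nrm (av v) u) - Real.log (av v (x 0 ^ 2 - 4 * x 1)))) =
      wt v * ((q * Real.log (nrm (av v) u) - Real.log (av v (R u))) +
      (2 * Real.log (nrm (av v) u) - Real.log (av v (eval u (DD k)))) / 2) +
      wt v * ((2 * Real.log (nrm (av v) u) - Real.log (av v (eval u (DD k)))) / 2) := by
    intro v
    rw [hDu]; ring
  rw [Finset.sum_congr rfl fun v _ => hsplit v, Finset.sum_add_distrib]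
  linarith

end Pool.Agent.N830.VR
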