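import Mathlib
import Pool.Agent.N830.VQ.H

/-!
Quadratic points of the line on rational curves of `Sym² ℙ¹`: definitions and statements.
-/

set_option autoImplicit false

namespace Pool.Agent.N830.VR

open Polynomial
open Pool.Agent.N830.VQ (det2)
open Pool.Agent.W180.OP (Pl av wt nrm)
open Pool.Agent.R405 (Good)

/-- the value of the family of forms `P 0 X² + P 1 X Y + P 2 Y²` at the point `a` -/
noncomputable def pv {F : Type} [Field F] (P : Fin 3 → F[X]) (a : Fin 2 → F) : F[X] :=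
  P 0 * C (a 0 ^ 2) + P 1 * C (a 0 * a 1) + P 2 * C (a 1 ^ 2)

/-- the discriminant of the family -/
noncomputable def pd {F : Type} [Field F] (P : Fin 3 → F[X]) : F[X] := P 1 ^ 2 - 4 * P 0 * P 2

/-- the wronskian -/
noncomputable def wr {F : Type} [Field F] (A B : F[X]) : F[X] :=
  A * derivative B - B * derivative A

/-- the resultant of the family and its derivative -/
noncomputable def RR {F : Type} [Field F] (P : Fin 3 → F[X]) : F[X] :=
  wr (P 0) (P 2) ^ 2 - wr (P 0) (P 1) * wr (P 1) (P 2)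

/-- no common zero in an extension -/
def NoZero {F : Type} [Field F] (P : Fin 3 → F[X]) : Prop :=
  ∀ (L : Type) [Field L] [Algebra F L] (x : L), ∃ j, aeval x (P j) ≠ 0

/-- (LOC) local multiplicities and the resultant -/
def S_LOC : Prop := ∀ (F : Type) [Field F] [CharZero F] (P : Fin 3 → F[X]) (q : ℕ)
  (a : Fin q → Fin 2 → F), (∀ i, a i ≠ 0) → (∀ i j, i ≠ j → det2 (a i) (a j) ≠ 0) →
  ∀ y : F, (∃ j, eval y (P j) ≠ 0) → ∀ (m : Fin q → ℕ) (n : ℕ),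
  (∀ i, (X - C y) ^ m i ∣ pv P (a i)) → (X - C y) ^ n ∣ pd P →
  (X - C y) ^ (∑ i, m i + n) ∣ (X - C y) ^ 2 * RR P

/-- (GLOB) the sum of two multiplicities -/
def S_GLOB : Prop := ∀ (F : Type) [Field F] [CharZero F] (P : Fin 3 → F[X]) (q : ℕ)
  (a : Fin q → Fin 2 → F), (∀ i, a i ≠ 0) → (∀ i j, i ≠ j → det2 (a i) (a j) ≠ 0) →
  ∀ N : ℕ, (∀ j, (P j).natDegree ≤ N) → RR P ≠ 0 → (∀ y : F, ∃ j, eval y (P j) ≠ 0) →
  (∏ i, pv P (a i)) * pd P ≠ 0 → ∀ y z : F, y ≠ z →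
  rootMultiplicity y ((∏ i, pv P (a i)) * pd P) +
    rootMultiplicity z ((∏ i, pv P (a i)) * pd P) ≤ 4 * N

/-- (SQ) if the resultant vanishes, then the discriminant is a square -/
def S_SQ : Prop := ∀ (F : Type) [Field F] [CharZero F] (P : Fin 3 → F[X]), NoZero P →
  (∃ j, 1 ≤ (P j).natDegree) → RR P = 0 → IsSquare (pd P)

/-- (HT) the height on a rational curve -/
def S_HT : Prop := ∀ (k : Type) [Field k] [NumberField k] (P : Fin 3 → k[X]) (N : ℕ),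
  (∀ j, (P j).natDegree ≤ N) → (∃ j, (P j).coeff N ≠ 0) → NoZero P →
  ∃ C : ℝ, ∀ t : k, N * Height.logHeight ![t, 1] ≤
    Height.logHeight (fun j => eval t (P j)) + C

/-- (UP) the local norm on a rational curve -/
def S_UP : Prop := ∀ (F : Type) [Field F] (f : AbsoluteValue F ℝ) (P : Fin 3 → F[X]) (N : ℕ),
  (∀ j, (P j).natDegree ≤ N) → ∃ C : ℝ, ∀ t : F, (fun j => eval t (P j)) ≠ 0 →
    Real.log (nrm f fun j => eval t (P j)) ≤ N * Real.log (nrm f ![t, 1]) + C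

/-- (ROTH) Roth's theorem on the line, several places, choice of the points -/
def S_ROTH : Prop := ∀ (k K : Type) [Field k] [NumberField k] [Field K] [NumberField K]
  [Algebra k K] [IsGalois ℚ K], (∃ z : K, z ^ 2 = -1) → ∀ (Y : Type) [Fintype Y] (y : Y → K),
  ∃ Z : Finset k, ∀ (S : Finset (Pl k)) (f : Pl k → AbsoluteValue K ℝ),
    (∀ v ∈ S, Good v (f v)) → ∀ ε : ℝ, 0 < ε → ∃ C : ℝ, 0 ≤ C ∧ ∀ t : k, t ∉ Z →
    (∀ i, algebraMap k K t ≠ y i) → ∀ β : Pl k → Y,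
    ∑ v ∈ S, wt v * max 0 (Real.log (nrm (av v) ![t, 1]) -
      Real.log (f v (algebraMap k K t - y (β v)))) ≤ (2 + ε) * Height.logHeight ![t, 1] + C

/-- (NEAR) the nearest point -/
def S_NEAR : Prop := ∀ (K : Type) [Field K] (f : AbsoluteValue K ℝ) (Y : Type) [Fintype Y]
  [Nonempty Y] (y : Y → K), Function.Injective y → ∀ c : Y → ℝ, (∀ i, 0 ≤ c i) →
  ∃ C : ℝ, 0 ≤ C ∧ ∀ t : K, (∀ i, t ≠ y i) → ∃ i, ∑ j, c j * (Real.log (nrm f ![t, 1]) -
    Real.log (f (t - y j))) ≤ c i * max 0 (Real.log (nrm f ![t, 1]) -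
    Real.log (f (t - y i))) + C

/-- (LI1) the Liouville inequality -/
def S_LI1 : Prop := ∀ (k : Type) [Field k] [NumberField k] (z : k) (S : Finset (Pl k)),
  ∃ C : ℝ, 0 ≤ C ∧ ∀ t : k, t ≠ z → ∑ v ∈ S, wt v * max 0 (Real.log (nrm (av v) ![t, 1]) -
    Real.log (av v (t - z))) ≤ Height.logHeight ![t, 1] + C

/-- (ELIM) elimination -/
def S_ELIM : Prop := ∀ (k : Type) [Field k] (φ G : MvPolynomial (Fin 2) k), Irreducible φ →
  ¬ φ ∣ G → ∀ i : Fin 2, ∃ r : k[X], r ≠ 0 ∧ ∃ U V : MvPolynomial (Fin 2) k,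
    aeval (MvPolynomial.X i : MvPolynomial (Fin 2) k) r = U * φ + V * G

/-- (COVER) a plane curve with a rational parametrization has one which covers all but finitely
many of its rational points -/
def S_COVER : Prop := ∀ (k : Type) [Field k] (φ : MvPolynomial (Fin 2) k), Irreducible φ →
  ∀ z : Fin 2 → RatFunc k, MvPolynomial.aeval z φ = 0 → (∃ i, ∀ c : k, z i ≠ RatFunc.C c) →
  ∃ P : Fin 3 → k[X], NoZero P ∧ (∃ j, 1 ≤ (P j).natDegree) ∧ ∃ Q : Finset (Fin 2 → k),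
    ∀ x : Fin 2 → k, MvPolynomial.eval x φ = 0 → x ∉ Q → ∃ t : k, eval t (P 0) ≠ 0 ∧
      eval t (P 1) = x 0 * eval t (P 0) ∧ eval t (P 2) = x 1 * eval t (P 0)

/-- (REFL) change of the parameter: `t = c + 1 / s` -/
def S_REFL : Prop := ∀ (F : Type) [Field F] (P : Fin 3 → F[X]) (N : ℕ) (c : F), 1 ≤ N →
  (∀ j, (P j).natDegree ≤ N) → (∃ j, (P j).coeff N ≠ 0) → NoZero P →
  ∃ P' : Fin 3 → F[X], (∀ j, (P' j).natDegree ≤ N) ∧ (∀ j, (P' j).coeff N = eval c (P j)) ∧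
    NoZero P' ∧ ∀ t : F, t ≠ c → ∀ j, eval t (P j) = (t - c) ^ N * eval (t - c)⁻¹ (P' j)

/-- (AFF) the affine form of the theorem off a curve -/
def S_AFF : Prop := ∀ (k K : Type) [Field k] [NumberField k] [Field K] [NumberField K]
  [Algebra k K] (q : ℕ) (a : Fin q → Fin 2 → K), (∀ i, a i ≠ 0) →
  (∀ i j, i ≠ j → a i 0 * a j 1 ≠ a i 1 * a j 0) → ∀ R : (Fin 3 → k) → k,
  (∀ P : Fin 3 → k, algebraMap k K (R P) =
    ∏ i, Pool.Agent.N830.VQ.fa (fun j => algebraMap k K (P j)) (a i)) →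
  ∀ ε : ℝ, 0 < ε → ∃ φ : MvPolynomial (Fin 2) k, φ ≠ 0 ∧ ∀ S : Finset (Pl k), ∃ C : ℝ,
    ∀ x : Fin 2 → k, MvPolynomial.eval x φ ≠ 0 → R ![1, x 0, x 1] ≠ 0 →
      x 0 ^ 2 - 4 * x 1 ≠ 0 →
      ∑ v ∈ S, wt v * ((q * Real.log (nrm (av v) ![1, x 0, x 1]) -
          Real.log (av v (R ![1, x 0, x 1]))) +
        (2 * Real.log (nrm (av v) ![1, x 0, x 1]) - Real.log (av v (x 0 ^ 2 - 4 * x 1)))) ≤
        (4 + ε) * Height.logHeight ![1, x 0, x 1] + C

end Pool.Agent.N830.VR
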