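import Mathlib
import Pool.Agent.N830.VR.Stm

/-!
# VR/ELIM: elimination (helper401)
-/

set_option autoImplicit false

namespace Pool.Agent.N830.VR.PELIM

open Polynomial

theorem elim0 (k : Type) [Field k] (φ G : MvPolynomial (Fin 2) k) (hφ : Irreducible φ)
    (hG : ¬ φ ∣ G) (i : Fin 2) : ∃ r : k[X], r ≠ 0 ∧ ∃ U V : MvPolynomial (Fin 2) k,
    aeval (MvPolynomial.X i : MvPolynomial (Fin 2) k) r = U * φ + V * G := by
  classical
  have hprime : Prime φ := hφ.prime
  have hPI : (Ideal.span {φ}).IsPrime := (Ideal.span_singleton_prime hφ.ne_zero).2 hprime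
  have hdom : IsDomain (MvPolynomial (Fin 2) k ⧸ Ideal.span {φ}) := Ideal.Quotient.isDomain _
  let π : MvPolynomial (Fin 2) k →+* (MvPolynomial (Fin 2) k ⧸ Ideal.span {φ}) :=
    Ideal.Quotient.mk _
  let b : k[X] →+* MvPolynomial (Fin 2) k :=
    (aeval (MvPolynomial.X i : MvPolynomial (Fin 2) k)).toRingHom
  let _ : Algebra k[X] (MvPolynomial (Fin 2) k ⧸ Ideal.span {φ}) := (π.comp b).toAlgebra
  have halg : ∀ h : k[X], algebraMap k[X] (MvPolynomial (Fin 2) k ⧸ Ideal.span {φ}) h =
      π (b h) := fun h => rfl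
  obtain ⟨j, hj, hij⟩ : ∃ j : Fin 2, j ≠ i ∧ ∀ l, l = i ∨ l = j := by
    fin_cases i
    · exact ⟨1, by decide, by decide⟩
    · exact ⟨0, by decide, by decide⟩
  let F : MvPolynomial (Fin 2) k →+* k[X][X] :=
    MvPolynomial.eval₂Hom ((C : k[X] →+* k[X][X]).comp (C : k →+* k[X]))
      (fun l => if l = i then C X else X)
  let B : k[X][X] →+* MvPolynomial (Fin 2) k := Polynomial.eval₂RingHom b (MvPolynomial.X j)
  have hBF : ∀ p, B (F p) = p := by
    have h1 : B.comp F = RingHom.id _ := by
      apply MvPolynomial.ringHom_ext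
      · intro c
        simp [F, B, b]
      · intro l
        rcases hij l with rfl | rfl
        · simp [F, B, b]
        · simp [F, B, b, hj]
    intro p
    exact congrArg (fun f : MvPolynomial (Fin 2) k →+* MvPolynomial (Fin 2) k => f p) h1
  have hF0 : F φ ≠ 0 := by
    intro h
    apply hφ.ne_zero
    rw [← hBF φ, h, map_zero]
  have hxj : IsAlgebraic k[X] (π (MvPolynomial.X j)) := by
    refine ⟨F φ, hF0, ?_⟩
    have h1 : aeval (π (MvPolynomial.X j)) (F φ) = π (B (F φ)) := by
      rw [Polynomial.aeval_def]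
      exact (Polynomial.hom_eval₂ (F φ) b π (MvPolynomial.X j)).symm
    rw [h1, hBF]
    exact Ideal.Quotient.eq_zero_iff_mem.2 (Ideal.mem_span_singleton_self φ)
  have hall : ∀ p : MvPolynomial (Fin 2) k, IsAlgebraic k[X] (π p) := by
    intro p
    induction p using MvPolynomial.induction_on with
    | C c =>
      have : π (MvPolynomial.C c) = algebraMap k[X] _ (C c) := by
        rw [halg]
        simp [b]
      rw [this]
      exact isAlgebraic_algebraMap _
    | add p q hp hq =>
      rw [map_add]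
      exact hp.add hq
    | mul_X p l hp =>
      rw [map_mul]
      refine hp.mul ?_
      rcases hij l with rfl | rfl
      · have : π (MvPolynomial.X l) = algebraMap k[X] _ X := by
          rw [halg]
          simp [b]
        rw [this]
        exact isAlgebraic_algebraMap _
      · exact hxj
  have hg : π G ≠ 0 := by
    intro h
    apply hG
    rw [← Ideal.mem_span_singleton]
    exact Ideal.Quotient.eq_zero_iff_mem.1 h
  obtain ⟨r, hr, V, hV⟩ := (hall G).exists_nonzero_dvd (mem_nonZeroDivisors_of_ne_zero hg)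
  refine ⟨r, hr, ?_⟩
  obtain ⟨v, rfl⟩ := Ideal.Quotient.mk_surjective V
  have h1 : π (b r - G * v) = 0 := by
    rw [map_sub, map_mul, ← halg, hV]
    exact sub_self _
  have h2 := Ideal.Quotient.eq_zero_iff_mem.1 h1
  rw [Ideal.mem_span_singleton] at h2
  obtain ⟨u, hu⟩ := h2
  refine ⟨u, v, ?_⟩
  have h3 : b r = u * φ + v * G := by linear_combination hu
  exact h3

theorem elimination : Pool.Agent.N830.VR.S_ELIM :=
  fun k _ φ G hφ hG i => elim0 k φ G hφ hG i

end Pool.Agent.N830.VR.PELIM
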