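import Pool.Agent.N830.VR.Stm

/-! VR/GLOB (helper547 for helper830). -/

set_option autoImplicit false

namespace Pool.Agent.N830.VR.Glob

open Polynomial
open Pool.Agent.N830.VQ (det2)

variable {F : Type} [Field F]

lemma coeff_mul_top {p q : F[X]} {m n : ℕ} (hp : p.natDegree ≤ m) (hq : q.natDegree ≤ n) :
    (p * q).coeff (m + n) = p.coeff m * q.coeff n := by
  rw [coeff_mul]
  refine Finset.sum_eq_single (m, n) ?_ ?_
  · rintro ⟨i, j⟩ hij hne
    rw [Finset.HasAntidiagonal.mem_antidiagonal] at hij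
    simp only at hij hne ⊢
    rcases lt_trichotomy i m with h | h | h
    · have : n < j := by omega
      rw [coeff_eq_zero_of_natDegree_lt (lt_of_le_of_lt hq this), mul_zero]
    · exact absurd (by rw [h]; congr 1; omega) hne
    · rw [coeff_eq_zero_of_natDegree_lt (lt_of_le_of_lt hp h), zero_mul]
  · intro h
    rw [Finset.HasAntidiagonal.mem_antidiagonal] at h
    exact absurd rfl h

lemma deg_wr {A B : F[X]} {M : ℕ} (hA : A.natDegree ≤ M + 1) (hB : B.natDegree ≤ M + 1) :
    (wr A B).natDegree ≤ 2 * M := by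
  have hA' : (derivative A).natDegree ≤ M := (natDegree_derivative_le A).trans (by omega)
  have hB' : (derivative B).natDegree ≤ M := (natDegree_derivative_le B).trans (by omega)
  have h1 : (wr A B).natDegree ≤ (M + 1) + M := by
    unfold wr
    refine (natDegree_sub_le _ _).trans (max_le ?_ ?_)
    · exact natDegree_mul_le.trans (add_le_add hA hB')
    · exact natDegree_mul_le.trans (add_le_add hB hA')
  have h2 : (wr A B).coeff ((M + 1) + M) = 0 := by
    unfold wr
    rw [coeff_sub, coeff_mul_top hA hB', coeff_mul_top hB hA', coeff_derivative, coeff_derivative]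
    ring
  rw [natDegree_le_iff_coeff_eq_zero]
  intro n hn
  by_cases h : n = (M + 1) + M
  · rw [h, h2]
  · exact coeff_eq_zero_of_natDegree_lt (lt_of_le_of_lt h1 (by omega))

lemma deg_RR {P : Fin 3 → F[X]} {M : ℕ} (hP : ∀ j, (P j).natDegree ≤ M + 1) :
    (RR P).natDegree ≤ 4 * M := by
  unfold RR
  refine (natDegree_sub_le _ _).trans (max_le ?_ ?_)
  · refine natDegree_pow_le.trans ?_
    have := deg_wr (hP 0) (hP 2)
    omega
  · refine natDegree_mul_le.trans ?_
    have h1 := deg_wr (hP 0) (hP 1)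
    have h2 := deg_wr (hP 1) (hP 2)
    omega

lemma rm_prod {ι : Type} (s : Finset ι) (f : ι → F[X]) (y : F) (h : ∏ i ∈ s, f i ≠ 0) :
    rootMultiplicity y (∏ i ∈ s, f i) = ∑ i ∈ s, rootMultiplicity y (f i) := by
  classical
  induction s using Finset.induction_on with
  | empty => simp
  | insert a s ha ih =>
    rw [Finset.prod_insert ha] at h ⊢
    rw [rootMultiplicity_mul h, Finset.sum_insert ha, ih (right_ne_zero_of_mul h)]

theorem glob (h : S_LOC) : S_GLOB := by
  intro F _ _ P q a ha hdet N hN hR hy hT y z hyz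
  -- `N` is positive
  have hN1 : N ≠ 0 := by
    rintro rfl
    apply hR
    have : ∀ j, derivative (P j) = 0 := by
      intro j
      exact derivative_of_natDegree_zero (Nat.le_zero.1 (hN j))
    unfold RR wr
    rw [this, this, this]
    ring
  obtain ⟨M, rfl⟩ := Nat.exists_eq_succ_of_ne_zero hN1
  have hdeg : (RR P).natDegree ≤ 4 * M := deg_RR hN
  have hprod : ∏ i, pv P (a i) ≠ 0 := left_ne_zero_of_mul hT
  have key : ∀ y : F, (X - C y) ^ rootMultiplicity y ((∏ i, pv P (a i)) * pd P) ∣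
      (X - C y) ^ 2 * RR P := by
    intro y
    rw [rootMultiplicity_mul hT, rm_prod _ _ _ hprod]
    exact h F P q a ha hdet y (hy y) (fun i => rootMultiplicity y (pv P (a i)))
      (rootMultiplicity y (pd P)) (fun i => pow_rootMultiplicity_dvd _ _)
      (pow_rootMultiplicity_dvd _ _)
  have hcop : IsCoprime ((X - C y) ^ rootMultiplicity y ((∏ i, pv P (a i)) * pd P))
      ((X - C z) ^ rootMultiplicity z ((∏ i, pv P (a i)) * pd P)) :=
    (isCoprime_X_sub_C_of_isUnit_sub (isUnit_iff_ne_zero.2 (sub_ne_zero.2 hyz))).pow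
  have hd : (X - C y) ^ rootMultiplicity y ((∏ i, pv P (a i)) * pd P) *
      (X - C z) ^ rootMultiplicity z ((∏ i, pv P (a i)) * pd P) ∣
      (X - C y) ^ 2 * (X - C z) ^ 2 * RR P := by
    refine hcop.mul_dvd ?_ ?_
    · refine (key y).trans ⟨(X - C z) ^ 2, ?_⟩
      ring
    · refine (key z).trans ⟨(X - C y) ^ 2, ?_⟩
      ring
  have hne : (X - C y) ^ 2 * (X - C z) ^ 2 * RR P ≠ 0 :=
    mul_ne_zero (mul_ne_zero (pow_ne_zero _ (X_sub_C_ne_zero y)) (pow_ne_zero _ (X_sub_C_ne_zero z)))
      hR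
  have h1 := natDegree_le_of_dvd hd hne
  rw [natDegree_mul (pow_ne_zero _ (X_sub_C_ne_zero y)) (pow_ne_zero _ (X_sub_C_ne_zero z)),
    natDegree_pow, natDegree_pow, natDegree_X_sub_C, natDegree_X_sub_C,
    natDegree_mul (mul_ne_zero (pow_ne_zero _ (X_sub_C_ne_zero y))
      (pow_ne_zero _ (X_sub_C_ne_zero z))) hR,
    natDegree_mul (pow_ne_zero _ (X_sub_C_ne_zero y)) (pow_ne_zero _ (X_sub_C_ne_zero z)),
    natDegree_pow, natDegree_pow, natDegree_X_sub_C, natDegree_X_sub_C] at h1
  omega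

end Pool.Agent.N830.VR.Glob
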