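import Pool.Agent.N830.VR.Stm

/-! VR/LOC (helper547 for helper830). -/

set_option autoImplicit false

namespace Pool.Agent.N830.VR.Loc

open Polynomial
open Pool.Agent.N830.VQ (det2 qa qa_dot three_zero disc_zero exists_compl)

variable {F : Type} [Field F]

lemma dvd_der (y : F) {A : F[X]} {i : ℕ} (h : (X - C y) ^ i ∣ A) :
    (X - C y) ^ i ∣ (X - C y) * derivative A := by
  obtain ⟨B, rfl⟩ := h
  rcases i with _ | i
  · simp
  · refine ⟨C ((i + 1 : ℕ) : F) * B + (X - C y) * derivative B, ?_⟩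
    rw [derivative_mul, derivative_pow, derivative_sub, derivative_X, derivative_C,
      Nat.add_sub_cancel]
    ring

lemma dvd_wr_left (y : F) {A : F[X]} {i : ℕ} (h : (X - C y) ^ i ∣ A) (B : F[X]) :
    (X - C y) ^ i ∣ (X - C y) * wr A B := by
  have : (X - C y) * wr A B = A * ((X - C y) * derivative B) - B * ((X - C y) * derivative A) := by
    unfold wr
    ring
  rw [this]
  exact dvd_sub (h.mul_right _) ((dvd_der y h).mul_left _)

lemma wr_symm (A B : F[X]) : wr A B = -wr B A := by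
  unfold wr
  ring

lemma dvd_wr_right (y : F) {A : F[X]} {i : ℕ} (h : (X - C y) ^ i ∣ A) (B : F[X]) :
    (X - C y) ^ i ∣ (X - C y) * wr B A := by
  rw [wr_symm, mul_neg]
  exact (dvd_neg).2 (dvd_wr_left y h B)

lemma dvd_wr_both (y : F) {A B : F[X]} {i j : ℕ} (h : (X - C y) ^ i ∣ A) (h' : (X - C y) ^ j ∣ B) :
    (X - C y) ^ (i + j) ∣ (X - C y) * wr A B := by
  have : (X - C y) * wr A B = A * ((X - C y) * derivative B) - ((X - C y) * derivative A) * B := by
    unfold wr
    ring
  rw [this, pow_add]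
  exact dvd_sub (mul_dvd_mul h (dvd_der y h')) (mul_dvd_mul (dvd_der y h) h')

/-- two roots -/
lemma v1 (y : F) {A W Z : F[X]} {i j : ℕ} (h : (X - C y) ^ i ∣ A) (h' : (X - C y) ^ j ∣ Z) :
    (X - C y) ^ (i + j) ∣ (X - C y) ^ 2 * (wr A Z ^ 2 - wr A W * wr W Z) := by
  have : (X - C y) ^ 2 * (wr A Z ^ 2 - wr A W * wr W Z) =
      ((X - C y) * wr A Z) * ((X - C y) * wr A Z) -
        ((X - C y) * wr A W) * ((X - C y) * wr W Z) := by ring
  rw [this]
  refine dvd_sub ((dvd_wr_both y h h').mul_right _) ?_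
  rw [pow_add]
  exact mul_dvd_mul (dvd_wr_left y h W) (dvd_wr_right y h' W)

/-- half of a power -/
lemma half (y : F) {W : F[X]} {n : ℕ} (h : (X - C y) ^ n ∣ W ^ 2) :
    ∃ s, n ≤ 2 * s ∧ (X - C y) ^ s ∣ W := by
  by_cases hW : W = 0
  · exact ⟨n, by omega, by rw [hW]; exact dvd_zero _⟩
  · refine ⟨rootMultiplicity y W, ?_, pow_rootMultiplicity_dvd W y⟩
    have h1 := (le_rootMultiplicity_iff (pow_ne_zero 2 hW)).2 h
    have h2 : rootMultiplicity y (W ^ 2) = rootMultiplicity y W + rootMultiplicity y W := by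
      rw [sq]
      exact rootMultiplicity_mul (mul_ne_zero hW hW)
    omega

lemma idR (A W Z : F[X]) : 16 * A ^ 2 * (wr A Z ^ 2 - wr A W * wr W Z) =
    (A * derivative (W ^ 2 - 4 * A * Z) - 2 * derivative A * (W ^ 2 - 4 * A * Z)) ^ 2 -
      4 * wr A W ^ 2 * (W ^ 2 - 4 * A * Z) := by
  have h4 : derivative (4 : F[X]) = 0 := by
    have : (4 : F[X]) = C (4 : F) := (map_ofNat C 4).symm
    rw [this, derivative_C]
  have h : derivative (W ^ 2 - 4 * A * Z) =
      2 * W * derivative W - (4 * derivative A * Z + 4 * A * derivative Z) := by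
    rw [sq, derivative_sub, derivative_mul, derivative_mul, derivative_mul, h4]
    ring
  rw [h]
  unfold wr
  ring

/-- tangency -/
lemma v2 [CharZero F] (y : F) {A W Z : F[X]} {i n : ℕ} (hi : (X - C y) ^ i ∣ Z)
    (hn : (X - C y) ^ n ∣ W ^ 2 - 4 * A * Z) (hA : eval y A ≠ 0) :
    (X - C y) ^ (i + n) ∣ (X - C y) ^ 2 * (wr A Z ^ 2 - wr A W * wr W Z) := by
  rcases le_total n i with hni | hin
  · -- `n ≤ i`
    have h1 : (X - C y) ^ n ∣ W ^ 2 := by
      have : W ^ 2 = (W ^ 2 - 4 * A * Z) + 4 * A * Z := by ring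
      rw [this]
      exact dvd_add hn (((pow_dvd_pow _ hni).trans hi).mul_left _)
    obtain ⟨s, hs, hsW⟩ := half y h1
    have e : (X - C y) ^ 2 * (wr A Z ^ 2 - wr A W * wr W Z) =
        ((X - C y) * wr A Z) * ((X - C y) * wr A Z) -
          ((X - C y) * wr A W) * ((X - C y) * wr W Z) := by ring
    rw [e]
    refine dvd_sub ?_ ?_
    · refine (pow_dvd_pow _ (by omega : i + n ≤ i + i)).trans ?_
      rw [pow_add]
      exact mul_dvd_mul (dvd_wr_right y hi A) (dvd_wr_right y hi A)
    · refine (pow_dvd_pow _ (by omega : i + n ≤ s + (s + i))).trans ?_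
      rw [pow_add]
      exact mul_dvd_mul (dvd_wr_right y hsW A) (dvd_wr_both y hsW hi)
  · -- `i ≤ n`
    have h1 : (X - C y) ^ i ∣ W ^ 2 := by
      have : W ^ 2 = (W ^ 2 - 4 * A * Z) + 4 * A * Z := by ring
      rw [this]
      exact dvd_add ((pow_dvd_pow _ hin).trans hn) (hi.mul_left _)
    obtain ⟨s, hs, hsW⟩ := half y h1
    have h2 : (X - C y) ^ (i + n) ∣
        (16 * A ^ 2) * ((X - C y) ^ 2 * (wr A Z ^ 2 - wr A W * wr W Z)) := by
      set D := W ^ 2 - 4 * A * Z with hD
      have e : (16 * A ^ 2) * ((X - C y) ^ 2 * (wr A Z ^ 2 - wr A W * wr W Z)) =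
          (A * ((X - C y) * derivative D) - 2 * derivative A * (X - C y) * D) *
            (A * ((X - C y) * derivative D) - 2 * derivative A * (X - C y) * D) -
          4 * ((((X - C y) * wr A W) * ((X - C y) * wr A W)) * D) := by
        have := idR A W Z
        rw [← hD] at this
        linear_combination (X - C y) ^ 2 * this
      rw [e]
      have h3 : (X - C y) ^ n ∣ A * ((X - C y) * derivative D) - 2 * derivative A * (X - C y) * D :=
        dvd_sub ((dvd_der y hn).mul_left _) (hn.mul_left _)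
      refine dvd_sub ?_ ?_
      · refine (pow_dvd_pow _ (by omega : i + n ≤ n + n)).trans ?_
        rw [pow_add]
        exact mul_dvd_mul h3 h3
      · refine (pow_dvd_pow _ (by omega : i + n ≤ (s + s) + n)).trans ?_
        rw [pow_add, pow_add]
        exact (mul_dvd_mul (mul_dvd_mul (dvd_wr_right y hsW A) (dvd_wr_right y hsW A))
          hn).mul_left _
    have hcop : IsCoprime ((X - C y) ^ (i + n)) (16 * A ^ 2) := by
      apply IsCoprime.pow_left
      refine (Irreducible.coprime_iff_not_dvd (irreducible_X_sub_C y)).2 ?_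
      rw [dvd_iff_isRoot, IsRoot.def, eval_mul, eval_pow]
      have h16 : eval y (16 : F[X]) = 16 := by simp
      rw [h16]
      exact mul_ne_zero (by norm_num) (pow_ne_zero 2 hA)
    exact hcop.dvd_of_dvd_mul_left h2

/-- the polar form of the family -/
noncomputable def pw (P : Fin 3 → F[X]) (a b : Fin 2 → F) : F[X] :=
  P 0 * C (2 * (a 0 * b 0)) + P 1 * C (a 0 * b 1 + a 1 * b 0) + P 2 * C (2 * (a 1 * b 1))

lemma frameD (P : Fin 3 → F[X]) (b b' : Fin 2 → F) :
    pw P b b' ^ 2 - 4 * pv P b * pv P b' = C (det2 b b' ^ 2) * pd P := by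
  unfold pw pv pd det2
  simp only [map_mul, map_pow, map_sub, map_add, map_ofNat]
  ring

lemma wr_lin (P : Fin 3 → F[X]) (a0 a1 a2 b0 b1 b2 : F) :
    wr (P 0 * C a0 + P 1 * C a1 + P 2 * C a2) (P 0 * C b0 + P 1 * C b1 + P 2 * C b2) =
      wr (P 0) (P 1) * C (a0 * b1 - a1 * b0) + wr (P 0) (P 2) * C (a0 * b2 - a2 * b0) +
        wr (P 1) (P 2) * C (a1 * b2 - a2 * b1) := by
  unfold wr
  simp only [derivative_add, derivative_mul, derivative_C, map_mul, map_sub, mul_zero, add_zero]
  ring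

lemma frameR (P : Fin 3 → F[X]) (b b' : Fin 2 → F) :
    wr (pv P b) (pv P b') ^ 2 - wr (pv P b) (pw P b b') * wr (pw P b b') (pv P b') =
      C (det2 b b' ^ 4) * RR P := by
  unfold pw pv RR det2
  rw [wr_lin, wr_lin, wr_lin]
  simp only [map_mul, map_pow, map_sub, map_add, map_ofNat]
  ring

/-- division by a constant -/
lemma dvd_const {c : F} (hc : c ≠ 0) {p T R : F[X]} (h : p ∣ T * (C c * R)) : p ∣ T * R := by
  have : T * R = C c⁻¹ * (T * (C c * R)) := by
    have h1 : C c⁻¹ * C c = (1 : F[X]) := by rw [← C_mul, inv_mul_cancel₀ hc, C_1]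
    linear_combination (-(T * R)) * h1
  rw [this]
  exact h.mul_left _

lemma V1 (P : Fin 3 → F[X]) (b b' : Fin 2 → F) (hd : det2 b b' ≠ 0) (y : F) {i j : ℕ}
    (h : (X - C y) ^ i ∣ pv P b) (h' : (X - C y) ^ j ∣ pv P b') :
    (X - C y) ^ (i + j) ∣ (X - C y) ^ 2 * RR P := by
  have := v1 y (W := pw P b b') h h'
  rw [frameR] at this
  exact dvd_const (pow_ne_zero 4 hd) this

lemma V2 [CharZero F] (P : Fin 3 → F[X]) (b b' : Fin 2 → F) (hd : det2 b b' ≠ 0) (y : F) {i n : ℕ}
    (hi : (X - C y) ^ i ∣ pv P b') (hn : (X - C y) ^ n ∣ pd P) (hA : eval y (pv P b) ≠ 0) :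
    (X - C y) ^ (i + n) ∣ (X - C y) ^ 2 * RR P := by
  have h1 : (X - C y) ^ n ∣ pw P b b' ^ 2 - 4 * pv P b * pv P b' := by
    rw [frameD]
    exact hn.mul_left _
  have := v2 y hi h1 hA
  rw [frameR] at this
  exact dvd_const (pow_ne_zero 4 hd) this

lemma eval_pv (P : Fin 3 → F[X]) (a : Fin 2 → F) (y : F) :
    eval y (pv P a) = ∑ j, qa a j * eval y (P j) := by
  rw [qa_dot]
  unfold pv
  simp only [eval_add, eval_mul, eval_C]

lemma eval_zero_of {y : F} {A : F[X]} {m : ℕ} (hm : m ≠ 0) (h : (X - C y) ^ m ∣ A) :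
    eval y A = 0 := by
  have : (X - C y) ∣ A := (dvd_pow_self _ hm).trans h
  exact dvd_iff_isRoot.1 this

theorem loc : S_LOC := by
  intro F _ _ P q a ha hdet y hy m n hm hn
  have hP : (fun j => eval y (P j)) ≠ 0 := by
    obtain ⟨j, hj⟩ := hy
    exact fun h => hj (congrFun h j)
  have hz : ∀ i, m i ≠ 0 → ∑ j, qa (a i) j * eval y (P j) = 0 := by
    intro i hi
    rw [← eval_pv]
    exact eval_zero_of hi (hm i)
  have hzn : n ≠ 0 → eval y (P 1) ^ 2 - 4 * eval y (P 0) * eval y (P 2) = 0 := by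
    intro h0
    have := eval_zero_of h0 hn
    unfold pd at this
    simpa using this
  by_cases h2 : ∃ i j, i ≠ j ∧ m i ≠ 0 ∧ m j ≠ 0
  · obtain ⟨i, j, hij, hi, hj⟩ := h2
    have hn0 : n = 0 := by
      by_contra h0
      exact hP (disc_zero (hdet i j hij) (hz i hi) (hz j hj) (hzn h0))
    have hother : ∀ l, l ≠ i ∧ l ≠ j → m l = 0 := by
      intro l hl
      by_contra h0
      exact hP (three_zero (hdet i j hij) (hdet i l hl.1.symm) (hdet j l hl.2.symm)
        (hz i hi) (hz j hj) (hz l h0))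
    rw [hn0, add_zero, Fintype.sum_eq_add i j hij hother]
    exact V1 P (a i) (a j) (hdet i j hij) y (hm i) (hm j)
  · push Not at h2
    by_cases h1 : ∃ i, m i ≠ 0
    · obtain ⟨i, hi⟩ := h1
      have hother : ∀ l, l ≠ i → m l = 0 := by
        intro l hl
        exact h2 i l hl.symm hi
      rw [Fintype.sum_eq_single i hother]
      obtain ⟨b, hb⟩ := exists_compl (ha i)
      have hb' : det2 b (a i) ≠ 0 := by
        intro h0
        apply hb
        unfold det2 at h0 ⊢
        linear_combination -h0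
      by_cases hev : eval y (pv P b) = 0
      · have hn0 : n = 0 := by
          by_contra h0
          rw [eval_pv] at hev
          exact hP (disc_zero hb (hz i hi) hev (hzn h0))
        rw [hn0]
        have := V1 P b (a i) hb' y (i := 0) (j := m i) (by simp) (hm i)
        rwa [zero_add] at this
      · exact V2 P b (a i) hb' y (hm i) hn hev
    · push Not at h1
      have hs : ∑ i, m i = 0 := Finset.sum_eq_zero fun i _ => h1 i
      rw [hs]
      have hex : ∃ b : Fin 2 → F, eval y (pv P b) ≠ 0 := by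
        by_contra hno
        push Not at hno
        refine hP (three_zero (a := ![1, 0]) (b := ![0, 1]) (c := ![1, 1]) ?_ ?_ ?_ ?_ ?_ ?_)
        · simp [det2]
        · simp [det2]
        · simp [det2]
        · rw [← eval_pv]; exact hno _
        · rw [← eval_pv]; exact hno _
        · rw [← eval_pv]; exact hno _
      obtain ⟨b, hb⟩ := hex
      have hb0 : b ≠ 0 := by
        rintro rfl
        apply hb
        unfold pv
        simp
      obtain ⟨b', hb'⟩ := exists_compl hb0
      exact V2 P b b' hb' y (by simp) hn hb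

end Pool.Agent.N830.VR.Loc
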