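import Pool.Agent.N830.VR.Stm

/-! VR/REFL (helper547 for helper830). -/

set_option autoImplicit false

namespace Pool.Agent.N830.VR.Refl

open Polynomial

theorem refl : S_REFL := by
  intro F _ P N c hN hdeg hco hNZ
  have hd : ∀ j, (taylor c (P j)).natDegree ≤ N := fun j => by
    rw [natDegree_taylor]
    exact hdeg j
  have hcoN : ∀ j, (taylor c (P j)).coeff N = (P j).coeff N := by
    intro j
    rcases (hdeg j).lt_or_eq with h | h
    · rw [coeff_eq_zero_of_natDegree_lt h,
        coeff_eq_zero_of_natDegree_lt (by rw [natDegree_taylor]; exact h)]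
    · rw [← h, coeff_taylor_natDegree]
      rfl
  refine ⟨fun j => reflect N (taylor c (P j)), ?_, ?_, ?_, ?_⟩
  · intro j
    exact natDegree_reflect_le.trans (max_le le_rfl (hd j))
  · intro j
    rw [coeff_reflect, revAt_le le_rfl, Nat.sub_self, taylor_coeff_zero]
  · intro L _ _ x
    by_cases hx : x = 0
    · obtain ⟨j, hj⟩ := hco
      refine ⟨j, ?_⟩
      rw [hx, ← coeff_zero_eq_aeval_zero', coeff_reflect, revAt_le (Nat.zero_le N), Nat.sub_zero,
        hcoN]
      exact (_root_.map_ne_zero _).2 hj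
    · obtain ⟨j, hj⟩ := hNZ L (algebraMap F L c + x⁻¹)
      refine ⟨j, fun h0 => hj ?_⟩
      let _ : Invertible (x⁻¹) := invertibleOfNonzero (inv_ne_zero hx)
      have h1 := eval₂_reflect_mul_pow (algebraMap F L) x⁻¹ N (taylor c (P j)) (hd j)
      rw [invOf_eq_inv, inv_inv, ← aeval_def, h0, zero_mul, taylor_apply, eval₂_comp] at h1
      rw [aeval_def, h1]
      congr 1
      rw [eval₂_add, eval₂_X, eval₂_C]
      ring
  · intro t ht j
    have htc : (t - c)⁻¹ ≠ 0 := inv_ne_zero (sub_ne_zero.2 ht)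
    let _ : Invertible (t - c) := invertibleOfNonzero (sub_ne_zero.2 ht)
    have h1 := eval₂_reflect_mul_pow (RingHom.id F) (t - c) N (taylor c (P j)) (hd j)
    rw [invOf_eq_inv, ← eval, ← eval, taylor_eval] at h1
    rw [mul_comm, h1]
    congr 1
    ring

end Pool.Agent.N830.VR.Refl
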