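import Pool.Agent.N830.VR.Stm
import Pool.Agent.R405.SchV

/-!
# VR/ROTH (helper2): Roth's theorem on the line, several places, choice of the points
-/

set_option autoImplicit false

namespace Pool.Agent.N830.VR

open Pool.Agent.W180.OP (Pl av wt nrm wt_nonneg le_nrm)
open Pool.Agent.R405 (Good schV dot exv)

namespace Roth

/-- the linear forms -/
def LL {K : Type} [Field K] {Y : Type} (y : Y → K) : Option Y → Fin 2 → K
  | none => ![0, 1]
  | some i => ![1, -y i]

variable {k K : Type} [Field k] [Field K] [Algebra k K]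

theorem dot_none {Y : Type} (y : Y → K) (t : k) :
    dot (LL y none) (exv K ![t, 1]) = 1 := by
  simp [dot, exv, LL, Fin.sum_univ_two]

theorem dot_some {Y : Type} (y : Y → K) (t : k) (i : Y) :
    dot (LL y (some i)) (exv K ![t, 1]) = algebraMap k K t - y i := by
  simp [dot, exv, LL, Fin.sum_univ_two, sub_eq_add_neg]

theorem loc (f : AbsoluteValue K ℝ) (g : AbsoluteValue k ℝ)
    (hfg : ∀ x : k, f (algebraMap k K x) = g x) (t : k) (y : K) (h : algebraMap k K t ≠ y) :
    0 ≤ Real.log (nrm g ![t, 1]) ∧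
    Real.log (f (algebraMap k K t - y)) ≤ Real.log (nrm g ![t, 1]) + Real.log (1 + f y) := by
  have h1 : (1 : ℝ) ≤ nrm g ![t, 1] := by
    have := le_nrm g ![t, 1] 1
    simpa using this
  have h2 : g t ≤ nrm g ![t, 1] := by
    have := le_nrm g ![t, 1] 0
    simpa using this
  refine ⟨Real.log_nonneg h1, ?_⟩
  have h3 : f (algebraMap k K t - y) ≤ g t + f y := by
    rw [sub_eq_add_neg, ← hfg, ← f.map_neg y]
    exact f.add_le _ _
  have h4 : 0 < f (algebraMap k K t - y) := f.pos (sub_ne_zero.2 h)
  have h5 : 0 ≤ f y := f.nonneg y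
  rw [← Real.log_mul (by linarith) (by linarith)]
  refine Real.log_le_log h4 (h3.trans ?_)
  nlinarith

end Roth

open Roth in
/-- (ROTH) Roth's theorem on the line, several places, choice of the points -/
theorem roth : S_ROTH := by
  intro k K _ _ _ _ _ _ hi Y _ y
  classical
  obtain ⟨Z, hZ0, hZ⟩ := schV (k := k) (K := K) (n := 2) hi (by norm_num) (LL y)
  refine ⟨Z.image (fun z => -z 1 / z 0), fun S f hf ε hε => ?_⟩
  obtain ⟨C, hC0, hC⟩ := hZ S f hf ε hε
  have hB0 : ∀ v, 0 ≤ ∑ i, Real.log (1 + f v (y i)) := fun v =>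
    Finset.sum_nonneg fun i _ => Real.log_nonneg (by linarith [(f v).nonneg (y i)])
  refine ⟨C + ∑ v ∈ S, wt v * ∑ i, Real.log (1 + f v (y i)),
    add_nonneg hC0 (Finset.sum_nonneg fun v _ => mul_nonneg (wt_nonneg v) (hB0 v)),
    fun t ht hty β => ?_⟩
  have h1 := hC ![t, 1] (fun h => by simpa using congrFun h 1) (by
    intro z hz h0
    rw [Fin.sum_univ_two] at h0
    simp only [Matrix.cons_val_zero, Matrix.cons_val_one, mul_one] at h0
    by_cases hz0 : z 0 = 0
    · apply hZ0 z hz
      rw [hz0, zero_mul, zero_add] at h0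
      funext j
      fin_cases j
      · exact hz0
      · exact h0
    · apply ht
      refine Finset.mem_image.2 ⟨z, hz, ?_⟩
      field_simp
      linear_combination -h0) (by
    intro l
    rcases l with _ | i
    · rw [dot_none]; exact one_ne_zero
    · rw [dot_some]; exact sub_ne_zero.2 (hty i)) (fun v => ![some (β v), none]) (by
    intro v _
    rw [Matrix.det_fin_two]
    simp [LL])
  have h2 : ∀ v ∈ S, wt v * max 0 (Real.log (nrm (av v) ![t, 1]) -
      Real.log (f v (algebraMap k K t - y (β v)))) ≤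
      wt v * ∑ a, (Real.log (nrm (av v) ![t, 1]) -
        Real.log (f v (dot (LL y ((![some (β v), none] : Fin 2 → Option Y) a)) (exv K ![t, 1])))) +
      wt v * ∑ i, Real.log (1 + f v (y i)) := by
    intro v hv
    rw [← mul_add]
    refine mul_le_mul_of_nonneg_left ?_ (wt_nonneg v)
    rw [Fin.sum_univ_two]
    simp only [Matrix.cons_val_zero, Matrix.cons_val_one]
    rw [dot_some, dot_none, map_one, Real.log_one, sub_zero]
    obtain ⟨h3, h4⟩ := loc (f v) (av v) (fun x => (hf v hv).ext x) t (y (β v)) (hty _)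
    have h5 : Real.log (1 + f v (y (β v))) ≤ ∑ i, Real.log (1 + f v (y i)) :=
      Finset.single_le_sum (f := fun i => Real.log (1 + f v (y i)))
        (fun i _ => Real.log_nonneg (by linarith [(f v).nonneg (y i)])) (Finset.mem_univ _)
    refine max_le ?_ ?_ <;> linarith [hB0 v]
  calc ∑ v ∈ S, wt v * max 0 (Real.log (nrm (av v) ![t, 1]) -
      Real.log (f v (algebraMap k K t - y (β v))))
      ≤ ∑ v ∈ S, (wt v * ∑ a, (Real.log (nrm (av v) ![t, 1]) -
        Real.log (f v (dot (LL y ((![some (β v), none] : Fin 2 → Option Y) a)) (exv K ![t, 1])))) +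
      wt v * ∑ i, Real.log (1 + f v (y i))) := Finset.sum_le_sum h2
    _ = (∑ v ∈ S, wt v * ∑ a, (Real.log (nrm (av v) ![t, 1]) -
        Real.log (f v (dot (LL y ((![some (β v), none] : Fin 2 → Option Y) a)) (exv K ![t, 1]))))) +
      ∑ v ∈ S, wt v * ∑ i, Real.log (1 + f v (y i)) := Finset.sum_add_distrib
    _ ≤ _ := by
      push_cast at h1
      linarith

end Pool.Agent.N830.VR
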