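import Pool.Agent.N830.VR.Stm

/-! VR/SQ (helper547 for helper830). -/

set_option autoImplicit false

namespace Pool.Agent.N830.VR.Sq

open Polynomial

variable {F : Type} [Field F]

lemma coeff_mul_top {p q : F[X]} {m n : ℕ} (hp : p.natDegree ≤ m) (hq : q.natDegree ≤ n) :
    (p * q).coeff (m + n) = p.coeff m * q.coeff n := by
  rw [coeff_mul]
  refine Finset.sum_eq_single (m, n) ?_ ?_
  · rintro ⟨i, j⟩ hij hne
    rw [Finset.HasAntidiagonal.mem_antidiagonal] at hij
    simp only at hij hne ⊢
    rcases lt_trichotomy i m with h | h | h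
    · have : n < j := by omega
      rw [coeff_eq_zero_of_natDegree_lt (lt_of_le_of_lt hq this), mul_zero]
    · exact absurd (by rw [h]; congr 1; omega) hne
    · rw [coeff_eq_zero_of_natDegree_lt (lt_of_le_of_lt hp h), zero_mul]
  · intro h
    rw [Finset.HasAntidiagonal.mem_antidiagonal] at h
    exact absurd rfl h

lemma coeff_XD (p : F[X]) (n : ℕ) : (X * derivative p).coeff n = p.coeff n * n := by
  rcases n with _ | n
  · simp
  · rw [coeff_X_mul, coeff_derivative]
    push_cast
    ring

lemma deg_XD (p : F[X]) : (X * derivative p).natDegree ≤ p.natDegree := by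
  rw [natDegree_le_iff_coeff_eq_zero]
  intro n hn
  rw [coeff_XD, coeff_eq_zero_of_natDegree_lt hn, zero_mul]

/-- the wronskian vanishes only for proportional polynomials -/
lemma star [CharZero F] {A B : F[X]} (hA : A ≠ 0) (h : wr A B = 0) : ∃ b : F, B = C b * A := by
  set n := A.natDegree with hn
  have hAn : A.coeff n ≠ 0 := by
    have := leadingCoeff_ne_zero.2 hA
    rwa [leadingCoeff] at this
  set b := B.coeff n / A.coeff n with hb
  refine ⟨b, ?_⟩
  by_contra hne
  set B' := B - C b * A with hB'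
  have hB0 : B' ≠ 0 := sub_ne_zero.2 hne
  have hw : wr A B' = 0 := by
    have : wr A B' = wr A B := by
      rw [hB']
      unfold wr
      rw [derivative_sub, derivative_mul, derivative_C]
      ring
    rw [this, h]
  set m := B'.natDegree with hm
  have hBm : B'.coeff m ≠ 0 := by
    have := leadingCoeff_ne_zero.2 hB0
    rwa [leadingCoeff] at this
  have h1 : A * (X * derivative B') - (X * derivative A) * B' = 0 := by
    have : A * (X * derivative B') - (X * derivative A) * B' = X * wr A B' := by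
      unfold wr
      ring
    rw [this, hw, mul_zero]
  have h2 := congrArg (fun p => coeff p (n + m)) h1
  simp only [coeff_sub, coeff_zero] at h2
  rw [coeff_mul_top le_rfl (deg_XD B'), coeff_mul_top (deg_XD A) le_rfl, coeff_XD, coeff_XD] at h2
  have h3 : A.coeff n * B'.coeff m * ((m : F) - n) = 0 := by linear_combination h2
  have h4 : (m : F) - n = 0 := by
    rcases mul_eq_zero.1 h3 with h5 | h5
    · exact absurd h5 (mul_ne_zero hAn hBm)
    · exact h5
  have h5 : m = n := by exact_mod_cast sub_eq_zero.1 h4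
  apply hBm
  rw [h5, hB', coeff_sub, coeff_C_mul, hb, div_mul_cancel₀ _ hAn, sub_self]

lemma idR (A W Z : F[X]) : 16 * A ^ 2 * (wr A Z ^ 2 - wr A W * wr W Z) =
    (A * derivative (W ^ 2 - 4 * A * Z) - 2 * derivative A * (W ^ 2 - 4 * A * Z)) ^ 2 -
      4 * wr A W ^ 2 * (W ^ 2 - 4 * A * Z) := by
  have h4 : derivative (4 : F[X]) = 0 := by
    have : (4 : F[X]) = C (4 : F) := (map_ofNat C 4).symm
    rw [this, derivative_C]
  have h : derivative (W ^ 2 - 4 * A * Z) =
      2 * W * derivative W - (4 * derivative A * Z + 4 * A * derivative Z) := by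
    rw [sq, derivative_sub, derivative_mul, derivative_mul, derivative_mul, h4]
    ring
  rw [h]
  unfold wr
  ring

theorem main : S_SQ := by
  intro F _ _ P hNZ hdeg hR
  have h4ne : (4 : F[X]) ≠ 0 := by norm_num
  by_cases hA : P 0 = 0
  · refine ⟨P 1, ?_⟩
    unfold pd
    rw [hA]
    ring
  have hid := idR (P 0) (P 1) (P 2)
  have hRR : wr (P 0) (P 2) ^ 2 - wr (P 0) (P 1) * wr (P 1) (P 2) = 0 := hR
  rw [hRR, mul_zero] at hid
  have hpd : pd P = P 1 ^ 2 - 4 * P 0 * P 2 := rfl
  rw [← hpd] at hid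
  set D := pd P with hD
  set s := P 0 * derivative D - 2 * derivative (P 0) * D with hs
  set w := wr (P 0) (P 1) with hw
  have hsq : s ^ 2 = (2 * w) ^ 2 * D := by linear_combination -hid
  by_cases hw0 : w = 0
  · exfalso
    obtain ⟨b, hb⟩ := star hA hw0
    have hs0 : s = 0 := by
      rw [hw0] at hsq
      have : s ^ 2 = 0 := by rw [hsq]; ring
      exact pow_eq_zero_iff (two_ne_zero) |>.1 this
    have hw2 : wr (P 0 ^ 2) D = 0 := by
      have : wr (P 0 ^ 2) D = P 0 * s := by
        rw [hs]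
        unfold wr
        rw [_root_.sq, derivative_mul]
        ring
      rw [this, hs0, mul_zero]
    obtain ⟨d, hd⟩ := star (pow_ne_zero 2 hA) hw2
    -- the third polynomial
    have hZ : P 2 = C ((b ^ 2 - d) / 4) * P 0 := by
      have h1 : 4 * P 0 * P 2 = 4 * P 0 * (C ((b ^ 2 - d) / 4) * P 0) := by
        have h2 : 4 * P 0 * P 2 = P 1 ^ 2 - D := by rw [hpd]; ring
        have h3 : (4 : F[X]) * C ((b ^ 2 - d) / 4) = C b ^ 2 - C d := by
          have h4' : (4 : F[X]) = C (4 : F) := (map_ofNat C 4).symm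
          rw [h4', ← C_mul, mul_div_cancel₀ _ (by norm_num : (4 : F) ≠ 0), C_sub, C_pow]
        rw [h2, hd, hb]
        linear_combination (-(P 0) ^ 2) * h3
      exact mul_left_cancel₀ (mul_ne_zero h4ne hA) h1
    have hall : ∀ j, ∃ c : F, P j = C c * P 0 := by
      intro j
      fin_cases j
      · exact ⟨1, by simp⟩
      · exact ⟨b, hb⟩
      · exact ⟨_, hZ⟩
    by_cases hdA : (P 0).natDegree = 0
    · obtain ⟨j, hj⟩ := hdeg
      obtain ⟨c, hc⟩ := hall j
      rw [hc] at hj
      have := natDegree_C_mul_le c (P 0)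
      omega
    · have hdg : (P 0).degree ≠ 0 := by
        intro h
        exact hdA (natDegree_eq_of_degree_eq_some h)
      obtain ⟨x, hx⟩ := IsAlgClosed.exists_aeval_eq_zero (AlgebraicClosure F) (P 0) hdg
      obtain ⟨j, hj⟩ := hNZ (AlgebraicClosure F) x
      obtain ⟨c, hc⟩ := hall j
      rw [hc, map_mul, hx, mul_zero] at hj
      exact hj rfl
  · have h2w : 2 * w ≠ 0 := mul_ne_zero two_ne_zero hw0
    have hdvd : (2 * w) ^ 2 ∣ s ^ 2 := ⟨D, hsq⟩
    have hdvd' : 2 * w ∣ s := by
      exact (UniqueFactorizationMonoid.pow_dvd_pow_iff_dvd (two_ne_zero)).1 hdvd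
    obtain ⟨u, hu⟩ := hdvd'
    refine ⟨u, ?_⟩
    have : (2 * w) ^ 2 * D = (2 * w) ^ 2 * (u * u) := by
      rw [← hsq, hu]
      ring
    exact mul_left_cancel₀ (pow_ne_zero 2 h2w) this

end Pool.Agent.N830.VR.Sq
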