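import Pool.Agent.N830.VR.G4
import Pool.Agent.N830.VR.P_LOC
import Pool.Agent.N830.VR.P_GLOB
import Pool.Agent.N830.VR.P_SQ
import Pool.Agent.N539.VR.Leaves
import Pool.Agent.N830.VR.P_ROTH
import Pool.Agent.N830.VR.P_ELIM
import Pool.Agent.N92.VR.COVER
import Pool.Agent.N830.VR.P_REFL
import Pool.Agent.N830.VR.P_AFF

/-!
Project VR: the final theorem without hypotheses (the leaves are by helpers 547, 539, 2, 401, 92,
712).
-/

set_option autoImplicit false

namespace Pool.Agent.N830.VR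

open Polynomial
open Pool.Agent.N830.VQ (det2 fa)
open Pool.Agent.W180.OP (Pl av wt nrm nrm_pos le_nrm wt_nonneg nrm_le exists_nrm)
open Pool.Agent.R405 (Good exists_big)

theorem fin {k K : Type} [Field k] [NumberField k] [Field K] [NumberField K] [Algebra k K]
    {q : ℕ} (a : Fin q → Fin 2 → K)
    (ha : ∀ i, a i ≠ 0) (hd : ∀ i j, i ≠ j → a i 0 * a j 1 ≠ a i 1 * a j 0)
    (R : (Fin 3 → k) → k)
    (hR : ∀ P : Fin 3 → k, algebraMap k K (R P) = ∏ i, fa (fun j => algebraMap k K (P j)) (a i))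
    (ε : ℝ) (hε : 0 < ε) :
    ∃ ψ : MvPolynomial (Fin 2) k, ψ ≠ 0 ∧ NoCurve ψ ∧ ∀ S : Finset (Pl k), ∃ C : ℝ,
      ∀ x : Fin 2 → k, MvPolynomial.eval x ψ ≠ 0 →
      R ![1, x 0, x 1] ≠ 0 → ¬ IsSquare (di ![1, x 0, x 1]) →
      Psi S q R ![1, x 0, x 1] ≤ (4 + ε) * Height.logHeight ![1, x 0, x 1] + C :=
  final aff (Glob.glob Loc.loc) Pool.Agent.N539.VR.ht Pool.Agent.N539.VR.up roth
    Pool.Agent.N539.VR.near Pool.Agent.N539.VR.li1 Sq.main Refl.refl
    (Pool.Agent.N92.VR.cover PELIM.elimination) a ha hd R hR ε hε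

theorem nonsq {k : Type} [Field k] [NumberField k] (x : AlgebraicClosure k)
    (hx : (minpoly k x).natDegree = 2) :
    ¬ IsSquare ((minpoly k x).coeff 1 ^ 2 - 4 * (minpoly k x).coeff 0) := by
  rintro ⟨s, hs⟩
  have hint : IsIntegral k x := by
    by_contra h
    rw [minpoly.eq_zero h, Polynomial.natDegree_zero] at hx
    omega
  have hm := minpoly.monic hint
  have hirr := minpoly.irreducible hint
  set p := minpoly k x with hp
  have hroot : p.IsRoot ((s - p.coeff 1) / 2) := by
    rw [Polynomial.IsRoot.def, Polynomial.eval_eq_sum_range, hx]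
    rw [Finset.sum_range_succ, Finset.sum_range_succ, Finset.sum_range_one]
    have h2 : p.coeff 2 = 1 := by
      have := hm.coeff_natDegree
      rwa [hx] at this
    rw [h2]
    field_simp
    linear_combination -hs
  have h1 := Polynomial.degree_eq_one_of_irreducible_of_root hirr hroot
  have h2 : p.natDegree = 1 := Polynomial.natDegree_eq_of_degree_eq_some h1
  rw [hx] at h2
  exact absurd h2 (by norm_num)

end Pool.Agent.N830.VR
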