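import Mathlib
import Pool.Agent.N830.VR.Stm

/-!
Rational curves of `Sym² ℙ¹`: the polynomial of the multiplicities.
-/

set_option autoImplicit false
set_option linter.unusedSectionVars false

namespace Pool.Agent.N830.VR

open Polynomial
open Pool.Agent.N830.VQ (det2 fa)
open Pool.Agent.W180.OP (Pl av wt nrm nrm_pos le_nrm)
open Pool.Agent.R405 (Good)

section field

variable {F L : Type} [Field F] [Field L] [Algebra F L]

/-- extension of the coefficients -/
noncomputable def ex (L : Type) [Field L] [Algebra F L] (P : Fin 3 → F[X]) : Fin 3 → L[X] :=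
  fun j => (P j).map (algebraMap F L)

/-- the discriminant of a form -/
def di (P : Fin 3 → F) : F := P 1 ^ 2 - 4 * P 0 * P 2

theorem eval_pv (P : Fin 3 → F[X]) (a : Fin 2 → F) (y : F) :
    eval y (pv P a) = fa (fun j => eval y (P j)) a := by
  simp only [pv, fa, eval_add, eval_mul, eval_C]
  ring

theorem eval_pd (P : Fin 3 → F[X]) (y : F) : eval y (pd P) = di (fun j => eval y (P j)) := by
  simp [pd, di]

theorem coeff_pv (P : Fin 3 → F[X]) (a : Fin 2 → F) (N : ℕ) :
    coeff (pv P a) N = fa (fun j => coeff (P j) N) a := by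
  simp only [pv, fa, coeff_add, coeff_mul_C]
  ring

theorem natDegree_pv (P : Fin 3 → F[X]) (a : Fin 2 → F) {N : ℕ} (h : ∀ j, (P j).natDegree ≤ N) :
    (pv P a).natDegree ≤ N := by
  unfold pv
  refine (natDegree_add_le _ _).trans (max_le ((natDegree_add_le _ _).trans (max_le ?_ ?_)) ?_)
  · exact (natDegree_mul_C_le _ _).trans (h 0)
  · exact (natDegree_mul_C_le _ _).trans (h 1)
  · exact (natDegree_mul_C_le _ _).trans (h 2)

theorem coeff_pd (P : Fin 3 → F[X]) {N : ℕ} (h : ∀ j, (P j).natDegree ≤ N) :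
    coeff (pd P) (N + N) = di (fun j => coeff (P j) N) := by
  unfold pd di
  have e : (4 : F[X]) * P 0 * P 2 = C 4 * (P 0 * P 2) := by
    rw [mul_assoc]
    rfl
  rw [coeff_sub, e, coeff_C_mul, sq, coeff_mul_add_eq_of_natDegree_le (h 1) (h 1),
    coeff_mul_add_eq_of_natDegree_le (h 0) (h 2)]
  ring

theorem natDegree_pd (P : Fin 3 → F[X]) {N : ℕ} (h : ∀ j, (P j).natDegree ≤ N) :
    (pd P).natDegree ≤ N + N := by
  unfold pd
  have e : (4 : F[X]) * P 0 * P 2 = C 4 * (P 0 * P 2) := by
    rw [mul_assoc]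
    rfl
  rw [e, sq]
  refine (natDegree_sub_le _ _).trans (max_le ?_ ?_)
  · exact natDegree_mul_le.trans (add_le_add (h 1) (h 1))
  · exact (natDegree_C_mul_le _ _).trans (natDegree_mul_le.trans (add_le_add (h 0) (h 2)))

/-- the polynomial of the multiplicities -/
noncomputable def TT {q : ℕ} (P : Fin 3 → F[X]) (a : Fin q → Fin 2 → F) : F[X] :=
  (∏ i, pv P (a i)) * pd P

theorem natDegree_TT {q : ℕ} (P : Fin 3 → F[X]) (a : Fin q → Fin 2 → F) {N : ℕ}
    (h : ∀ j, (P j).natDegree ≤ N) (h1 : ∀ i, fa (fun j => coeff (P j) N) (a i) ≠ 0)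
    (h2 : di (fun j => coeff (P j) N) ≠ 0) : TT P a ≠ 0 ∧ (TT P a).natDegree = q * N + (N + N) := by
  have e1 : ∀ i, (pv P (a i)).natDegree = N := by
    intro i
    refine le_antisymm (natDegree_pv P (a i) h) (le_natDegree_of_ne_zero ?_)
    rw [coeff_pv]
    exact h1 i
  have e1' : ∀ i, pv P (a i) ≠ 0 := by
    intro i h0
    apply h1 i
    rw [← coeff_pv, h0, coeff_zero]
  have e2' : pd P ≠ 0 := by
    intro h0
    apply h2
    rw [← coeff_pd P h, h0, coeff_zero]
  have e2 : (pd P).natDegree = N + N := by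
    refine le_antisymm (natDegree_pd P h) (le_natDegree_of_ne_zero ?_)
    rw [coeff_pd P h]
    exact h2
  have e3 : ∏ i, pv P (a i) ≠ 0 := Finset.prod_ne_zero_iff.2 fun i _ => e1' i
  refine ⟨mul_ne_zero e3 e2', ?_⟩
  unfold TT
  rw [natDegree_mul e3 e2', natDegree_prod _ _ fun i _ => e1' i, e2]
  simp only [e1, Finset.sum_const, Finset.card_univ, Fintype.card_fin, smul_eq_mul]

theorem eval_TT {q : ℕ} (P : Fin 3 → F[X]) (a : Fin q → Fin 2 → F) (y : F) :
    eval y (TT P a) = (∏ i, fa (fun j => eval y (P j)) (a i)) * di (fun j => eval y (P j)) := by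
  unfold TT
  rw [eval_mul, eval_prod, eval_pd]
  simp only [eval_pv]

theorem derivative_ex (P : F[X]) : derivative (P.map (algebraMap F L)) =
    (derivative P).map (algebraMap F L) := derivative_map _ _

theorem RR_ex (P : Fin 3 → F[X]) : RR (ex L P) = (RR P).map (algebraMap F L) := by
  simp only [RR, wr, ex, Polynomial.map_sub, Polynomial.map_pow, Polynomial.map_mul,
    derivative_map]

theorem RR_ex_ne {P : Fin 3 → F[X]} (h : RR P ≠ 0) : RR (ex L P) ≠ 0 := by
  rw [RR_ex]
  exact (Polynomial.map_ne_zero_iff (algebraMap F L).injective).2 h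

theorem nz_ex {P : Fin 3 → F[X]} (h : NoZero P) (y : L) : ∃ j, eval y (ex L P j) ≠ 0 := by
  obtain ⟨j, hj⟩ := h L y
  refine ⟨j, ?_⟩
  rwa [ex, eval_map_algebraMap]

theorem eval_ex (P : Fin 3 → F[X]) (t : F) (j : Fin 3) :
    eval (algebraMap F L t) (ex L P j) = algebraMap F L (eval t (P j)) := by
  rw [ex, eval_map_algebraMap, aeval_algebraMap_apply_eq_algebraMap_eval]

theorem di_map (P : Fin 3 → F) : di (fun j => algebraMap F L (P j)) = algebraMap F L (di P) := by
  simp [di, map_ofNat]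

end field

end Pool.Agent.N830.VR
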