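import Mathlib
import Pool.Agent.N830.VR.G1

/-!
Rational curves of `Sym² ℙ¹`: the inequality, when the parameter `∞` is generic.
-/

set_option autoImplicit false
set_option linter.unusedSectionVars false

namespace Pool.Agent.N830.VR

open Polynomial
open Pool.Agent.N830.VQ (det2 fa)
open Pool.Agent.W180.OP (Pl av wt nrm nrm_pos le_nrm wt_nonneg)
open Pool.Agent.R405 (Good)

section roots

variable {K : Type} [Field K]

open Classical in
theorem log_split (T : K[X]) (hs : T.Splits) (f : AbsoluteValue K ℝ) (t : K)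
    (ht : eval t T ≠ 0) : Real.log (f (eval t T)) = Real.log (f T.leadingCoeff) +
      ∑ i : {y // y ∈ T.roots.toFinset}, (rootMultiplicity (i : K) T : ℝ) *
        Real.log (f (t - i)) := by
  have h1 := hs.eval_eq_prod_roots t
  have hlc : T.leadingCoeff ≠ 0 := by
    intro h
    rw [h1, h, zero_mul] at ht
    exact ht rfl
  have hpr : (T.roots.map (t - ·)).prod ≠ 0 := by
    intro h
    rw [h1, h, mul_zero] at ht
    exact ht rfl
  have h2 : ∀ s ∈ T.roots, t - s ≠ 0 := by
    intro s hs0 h
    apply hpr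
    rw [Multiset.prod_eq_zero_iff]
    exact Multiset.mem_map.2 ⟨s, hs0, h⟩
  have h3 : ∀ m : Multiset K, (∀ s ∈ m, t - s ≠ 0) →
      Real.log (f (m.map (t - ·)).prod) = (m.map fun s => Real.log (f (t - s))).sum := by
    intro m
    induction m using Multiset.induction with
    | empty => simp
    | cons a m ih =>
      intro hm
      have ha := hm a (Multiset.mem_cons_self a m)
      have hm' := fun s hs => hm s (Multiset.mem_cons_of_mem hs)
      have hp : (m.map (t - ·)).prod ≠ 0 := by
        intro h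
        rw [Multiset.prod_eq_zero_iff] at h
        obtain ⟨s, hs1, hs2⟩ := Multiset.mem_map.1 h
        exact hm' s hs1 hs2
      rw [Multiset.map_cons, Multiset.prod_cons, Multiset.map_cons, Multiset.sum_cons, map_mul,
        Real.log_mul (f.pos_iff.2 ha).ne' (f.pos_iff.2 hp).ne', ih hm']
  rw [h1, map_mul, Real.log_mul (f.pos_iff.2 hlc).ne' (f.pos_iff.2 hpr).ne', h3 _ h2,
    Finset.sum_multiset_map_count]
  congr 1
  rw [← Finset.sum_coe_sort]
  refine Finset.sum_congr rfl fun i _ => ?_
  rw [nsmul_eq_mul, count_roots]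

open Classical in
theorem sum_mult (T : K[X]) (hs : T.Splits) :
    ∑ i : {y // y ∈ T.roots.toFinset}, (rootMultiplicity (i : K) T : ℝ) = T.natDegree := by
  rw [hs.natDegree_eq_card_roots, ← Multiset.toFinset_sum_count_eq, Nat.cast_sum,
    ← Finset.sum_coe_sort T.roots.toFinset]
  refine Finset.sum_congr rfl fun i _ => ?_
  rw [count_roots]

/-- multiplicities of conjugate points -/
theorem inv_mult {k : Type} [Field k] [Infinite k] [Algebra k K] (T : K[X])
    (hT : ∀ t : k, ∃ c : k, eval (algebraMap k K t) T = algebraMap k K c) (σ : K ≃ₐ[k] K)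
    (y : K) : rootMultiplicity (σ y) T = rootMultiplicity y T := by
  have h : T.map (σ : K →+* K) = T := by
    apply eq_of_infinite_eval_eq
    refine Set.infinite_of_injective_forall_mem (f := algebraMap k K)
      (algebraMap k K).injective fun t => ?_
    obtain ⟨c, hc⟩ := hT t
    have h1 : eval ((σ : K →+* K) (algebraMap k K t)) (T.map (σ : K →+* K)) =
        (σ : K →+* K) (eval (algebraMap k K t) T) := by
      rw [eval_map, eval₂_hom]
    have h2 : (σ : K →+* K) (algebraMap k K t) = algebraMap k K t := σ.commutes t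
    have h3 : (σ : K →+* K) (algebraMap k K c) = algebraMap k K c := σ.commutes c
    show eval (algebraMap k K t) (T.map (σ : K →+* K)) = eval (algebraMap k K t) T
    rw [h2, hc, h3] at h1
    rw [h1, hc]
  have h1 := eq_rootMultiplicity_map (p := T) (f := (σ : K →+* K)) σ.injective y
  rw [h] at h1
  exact h1.symm

end roots

section core

variable {k K : Type} [Field k] [NumberField k] [Field K] [NumberField K] [Algebra k K]

/-- the left-hand side of Vojta's inequality -/
noncomputable def Psi (S : Finset (Pl k)) (q : ℕ) (R : (Fin 3 → k) → k) (P : Fin 3 → k) : ℝ :=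
  ∑ v ∈ S, wt v * ((q * Real.log (nrm (av v) P) - Real.log (av v (R P))) +
    (2 * Real.log (nrm (av v) P) - Real.log (av v (di P))))

/-- arithmetic of the multiplicities -/
theorem mult_arith {c c0 N m m0 : ℝ} (hm : 0 ≤ m) (hm0 : 0 ≤ m0) (h0 : 2 * N ≤ c0)
    (h : c + c0 ≤ 4 * N) : c * m ≤ (4 * N - c0) * m + (2 * c0 - 4 * N) * m0 := by
  have h1 : c * m ≤ (4 * N - c0) * m := mul_le_mul_of_nonneg_right (by linarith) hm
  have h2 : 0 ≤ (2 * c0 - 4 * N) * m0 := mul_nonneg (by linarith) hm0
  linarith

theorem core (hGLOB : S_GLOB) (hHT : S_HT) (hUP : S_UP) (hROTH : S_ROTH) (hNEAR : S_NEAR)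
    (hLI1 : S_LI1) [IsGalois ℚ K] (hi : ∃ z : K, z ^ 2 = -1) {q : ℕ} (a : Fin q → Fin 2 → K)
    (ha : ∀ i, a i ≠ 0) (hd : ∀ i j, i ≠ j → det2 (a i) (a j) ≠ 0) (R : (Fin 3 → k) → k)
    (hR : ∀ P : Fin 3 → k, algebraMap k K (R P) = ∏ i, fa (fun j => algebraMap k K (P j)) (a i))
    (P : Fin 3 → k[X]) {N : ℕ} (hN : 1 ≤ N) (hdeg : ∀ j, (P j).natDegree ≤ N)
    (hNZ : NoZero P) (hRR : RR P ≠ 0) (hinf1 : R (fun j => (P j).coeff N) ≠ 0)
    (hinf2 : di (fun j => (P j).coeff N) ≠ 0) (hsplit : (TT (ex K P) a).Splits)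
    (S : Finset (Pl k)) (ε : ℝ) (hε : 0 < ε) :
    ∃ C : ℝ, ∀ t : k, R (fun j => eval t (P j)) ≠ 0 → di (fun j => eval t (P j)) ≠ 0 →
      Psi S q R (fun j => eval t (P j)) ≤
        (4 + ε) * Height.logHeight (fun j => eval t (P j)) + C := by
  classical
  have hgal : IsGalois k K := IsGalois.tower_top_of_isGalois ℚ k K
  set T := TT (ex K P) a with hTdef
  have hdegK : ∀ j, (ex K P j).natDegree ≤ N := fun j => natDegree_map_le.trans (hdeg j)
  have hcoK : (fun j => coeff (ex K P j) N) = fun j => algebraMap k K ((P j).coeff N) := by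
    funext j
    rw [ex, coeff_map]
  obtain ⟨hT0, hTdeg⟩ := natDegree_TT (ex K P) a hdegK (by
    intro i h
    rw [hcoK] at h
    have h1 := hR (fun j => (P j).coeff N)
    rw [Finset.prod_eq_zero (Finset.mem_univ i) h, map_eq_zero] at h1
    exact hinf1 h1) (by
    rw [hcoK, di_map, Ne, map_eq_zero]
    exact hinf2)
  rw [← hTdef] at hT0 hTdeg
  -- the values of `T`
  have hTev : ∀ t : k, eval (algebraMap k K t) T =
      algebraMap k K (R (fun j => eval t (P j)) * di (fun j => eval t (P j))) := by
    intro t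
    rw [hTdef, eval_TT]
    simp only [eval_ex]
    rw [map_mul, hR, ← di_map]
  -- multiplicities
  have hglob : ∀ y z : K, y ≠ z → rootMultiplicity y T + rootMultiplicity z T ≤ 4 * N :=
    hGLOB K (ex K P) q a ha hd N hdegK (RR_ex_ne hRR) (nz_ex hNZ) hT0
  have hglobR : ∀ y z : K, y ≠ z → (rootMultiplicity y T : ℝ) + rootMultiplicity z T ≤ 4 * N := by
    intro y z hyz
    exact_mod_cast hglob y z hyz
  set Y := {y // y ∈ T.roots.toFinset} with hY
  have hcard : 0 < T.roots.toFinset.card := by
    have h1 : 0 < Multiset.card T.roots := by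
      rw [← hsplit.natDegree_eq_card_roots, hTdeg]
      omega
    rw [Finset.card_pos, Multiset.toFinset_nonempty]
    exact Multiset.card_pos.1 h1
  have hne : Nonempty Y := by
    obtain ⟨y, hy⟩ := Finset.card_pos.1 hcard
    exact ⟨⟨y, hy⟩⟩
  have hNR : (1 : ℝ) ≤ N := by exact_mod_cast hN
  have hsum := sum_mult T hsplit
  rw [hTdeg] at hsum
  push_cast at hsum
  -- constants
  choose f hf using fun v : Pl k => Pool.Agent.R405.exists_good (K := K) v
  obtain ⟨CH, hCH⟩ := hHT k P N hdeg (by
    by_contra hcon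
    push Not at hcon
    apply hinf2
    simp [di, hcon]) hNZ
  choose CU hCU using fun v : Pl k => hUP k (av v) P N hdeg
  choose CN hCN0 hCN using fun v : Pl k => hNEAR K (f v) Y (fun y => (y : K))
    Subtype.val_injective (fun y => (rootMultiplicity (y : K) T : ℝ)) (fun _ => Nat.cast_nonneg _)
  obtain ⟨Z, hZ⟩ := hROTH k K hi Y (fun y => (y : K))
  obtain ⟨CR, hCR0, hCR⟩ := hZ S f (fun v _ => hf v) (ε / 2) (half_pos hε)
  set C1 : ℝ := ∑ v ∈ S, wt v * (CN v + (q + 2) * CU v - Real.log (f v T.leadingCoeff)) with hC1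
  -- the local estimate
  have hloc : ∀ t : k, R (fun j => eval t (P j)) ≠ 0 → di (fun j => eval t (P j)) ≠ 0 →
      (∀ i : Y, algebraMap k K t ≠ i) ∧ ∃ β : Pl k → Y, Psi S q R (fun j => eval t (P j)) ≤
        ∑ v ∈ S, wt v * ((rootMultiplicity (β v : K) T : ℝ) *
          max 0 (Real.log (nrm (av v) ![t, 1]) - Real.log (f v (algebraMap k K t - β v)))) +
        C1 := by
    intro t hRt hdt
    have hTt : eval (algebraMap k K t) T ≠ 0 := by
      rw [hTev, Ne, map_eq_zero]
      exact mul_ne_zero hRt hdt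
    have hty : ∀ i : Y, algebraMap k K t ≠ i := by
      intro i h
      apply hTt
      rw [h]
      have := Multiset.mem_toFinset.1 i.2
      exact (mem_roots'.1 this).2
    have hPt : (fun j => eval t (P j)) ≠ 0 := by
      intro h
      apply hdt
      rw [h]
      simp [di]
    refine ⟨hty, ?_⟩
    choose β hβ using fun v : Pl k => hCN v (algebraMap k K t) hty
    refine ⟨β, ?_⟩
    rw [hC1, ← Finset.sum_add_distrib]
    unfold Psi
    refine Finset.sum_le_sum fun v _ => ?_
    rw [← mul_add]
    refine mul_le_mul_of_nonneg_left ?_ (wt_nonneg v)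
    have hn1 : nrm (f v) ![algebraMap k K t, 1] = nrm (av v) ![t, 1] := by
      rw [← (hf v).nrm_ext]
      congr 1
      funext j
      fin_cases j <;> simp
    have h1 := hβ v
    rw [hn1] at h1
    have h2 := log_split T hsplit (f v) _ hTt
    have h3 : Real.log (f v (eval (algebraMap k K t) T)) =
        Real.log (av v (R fun j => eval t (P j))) + Real.log (av v (di fun j => eval t (P j))) := by
      rw [hTev, (hf v).ext, map_mul, Real.log_mul ((av v).pos_iff.2 hRt).ne'
        ((av v).pos_iff.2 hdt).ne']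
    have h4 := hCU v t hPt
    have h5 : ∑ j : Y, (rootMultiplicity (j : K) T : ℝ) * (Real.log (nrm (av v) ![t, 1]) -
        Real.log (f v (algebraMap k K t - j))) = (q * N + (N + N)) *
        Real.log (nrm (av v) ![t, 1]) - ∑ j : Y, (rootMultiplicity (j : K) T : ℝ) *
        Real.log (f v (algebraMap k K t - j)) := by
      simp only [mul_sub]
      rw [Finset.sum_sub_distrib, ← Finset.sum_mul, hsum]
    rw [h5] at h1
    have hq : (0 : ℝ) ≤ (q : ℝ) + 2 := by positivity
    have h6 := mul_le_mul_of_nonneg_left h4 hq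
    rw [h3] at h2
    have e1 : ((q : ℝ) * N + (N + N)) * Real.log (nrm (av v) ![t, 1]) =
        (q + 2) * (N * Real.log (nrm (av v) ![t, 1])) := by ring
    rw [e1] at h1
    have e2 : ((q : ℝ) + 2) * (N * Real.log (nrm (av v) ![t, 1]) + CU v) =
        (q + 2) * (N * Real.log (nrm (av v) ![t, 1])) + (q + 2) * CU v := by ring
    rw [e2] at h6
    have e3 : ((q : ℝ) + 2) * Real.log (nrm (av v) fun j => eval t (P j)) =
        q * Real.log (nrm (av v) fun j => eval t (P j)) +
        2 * Real.log (nrm (av v) fun j => eval t (P j)) := by ring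
    rw [e3] at h6
    linarith
  -- the main estimate off `Z`
  have hmain : ∃ C2 : ℝ, 0 ≤ C2 ∧ ∀ t : k, t ∉ Z → (∀ i : Y, algebraMap k K t ≠ i) →
      ∀ β : Pl k → Y, ∑ v ∈ S, wt v * ((rootMultiplicity (β v : K) T : ℝ) *
          max 0 (Real.log (nrm (av v) ![t, 1]) - Real.log (f v (algebraMap k K t - β v)))) ≤
        (4 + ε) * (N * Height.logHeight ![t, 1]) + C2 := by
    by_cases hc : ∀ i : Y, rootMultiplicity (i : K) T ≤ 2 * N
    · refine ⟨2 * N * CR, by positivity, fun t htZ ht β => ?_⟩
      have h1 := hCR t htZ ht β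
      have h2 : ∑ v ∈ S, wt v * ((rootMultiplicity (β v : K) T : ℝ) *
          max 0 (Real.log (nrm (av v) ![t, 1]) - Real.log (f v (algebraMap k K t - β v)))) ≤
          2 * N * ∑ v ∈ S, wt v * max 0 (Real.log (nrm (av v) ![t, 1]) -
            Real.log (f v (algebraMap k K t - β v))) := by
        rw [Finset.mul_sum]
        refine Finset.sum_le_sum fun v _ => ?_
        have h3 : (rootMultiplicity (β v : K) T : ℝ) ≤ 2 * N := by exact_mod_cast hc (β v)
        have h4 : 0 ≤ wt v * max 0 (Real.log (nrm (av v) ![t, 1]) -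
            Real.log (f v (algebraMap k K t - β v))) :=
          mul_nonneg (wt_nonneg v) (le_max_left _ _)
        have h5 := mul_le_mul_of_nonneg_right h3 h4
        linarith
      have h3 := mul_le_mul_of_nonneg_left h1 (by positivity : (0 : ℝ) ≤ 2 * N)
      have e1 : (2 : ℝ) * N * ((2 + ε / 2) * Height.logHeight ![t, 1] + CR) =
        (4 + ε) * (N * Height.logHeight ![t, 1]) + 2 * N * CR := by ring
      rw [e1] at h3
      linarith
    · push Not at hc
      obtain ⟨i0, hi0⟩ := hc
      have hi0R : (2 : ℝ) * N ≤ rootMultiplicity (i0 : K) T := by exact_mod_cast hi0.le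
      -- `i0` is rational
      obtain ⟨z0, hz0⟩ : ∃ z0 : k, algebraMap k K z0 = i0 := by
        have h1 : (i0 : K) ∈ Set.range (algebraMap k K) := by
          rw [IsGalois.mem_range_algebraMap_iff_fixed]
          intro σ
          by_contra hσ
          have h2 := hglob (σ i0) i0 hσ
          rw [inv_mult T (fun t => ⟨_, hTev t⟩) σ i0] at h2
          omega
        exact h1
      obtain ⟨CL, hCL0, hCL⟩ := hLI1 k z0 S
      set c0 : ℝ := (rootMultiplicity (i0 : K) T : ℝ) with hc0
      have hc04 : c0 ≤ 4 * N := by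
        have h1 := hglobR i0 (i0 + 1) (by simp)
        have h2 : (0 : ℝ) ≤ rootMultiplicity ((i0 : K) + 1) T := Nat.cast_nonneg _
        linarith
      refine ⟨(4 * N - c0) * CR + (2 * c0 - 4 * N) * CL, by
        have h1 : 0 ≤ (4 * N - c0) * CR := mul_nonneg (by linarith) hCR0
        have h2 : 0 ≤ (2 * c0 - 4 * N) * CL := mul_nonneg (by linarith) hCL0
        linarith, fun t htZ ht β => ?_⟩
      have h1 := hCR t htZ ht β
      have h2 := hCL t (by
        rintro rfl
        exact ht i0 hz0)
      have h3 : ∀ v ∈ S, wt v * ((rootMultiplicity (β v : K) T : ℝ) *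
          max 0 (Real.log (nrm (av v) ![t, 1]) - Real.log (f v (algebraMap k K t - β v)))) ≤
          (4 * N - c0) * (wt v * max 0 (Real.log (nrm (av v) ![t, 1]) -
            Real.log (f v (algebraMap k K t - β v)))) +
          (2 * c0 - 4 * N) * (wt v * max 0 (Real.log (nrm (av v) ![t, 1]) -
            Real.log (av v (t - z0)))) := by
        intro v _
        have h4 : f v (algebraMap k K t - i0) = av v (t - z0) := by
          rw [← hz0, ← map_sub, (hf v).ext]
        by_cases hb : β v = i0
        · rw [hb, h4]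
          refine le_of_eq ?_
          ring
        · have h5 := hglobR (β v) i0 (fun h => hb (Subtype.ext h))
          have h6 := mult_arith (m := max 0 (Real.log (nrm (av v) ![t, 1]) -
            Real.log (f v (algebraMap k K t - β v))))
            (m0 := max 0 (Real.log (nrm (av v) ![t, 1]) - Real.log (av v (t - z0))))
            (le_max_left _ _) (le_max_left _ _) hi0R h5
          have h7 := mul_le_mul_of_nonneg_left h6 (wt_nonneg v)
          refine h7.trans (le_of_eq ?_)
          ring
      have h4 := Finset.sum_le_sum h3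
      rw [Finset.sum_add_distrib, ← Finset.mul_sum, ← Finset.mul_sum] at h4
      have h5 := mul_le_mul_of_nonneg_left h1 (by linarith : (0 : ℝ) ≤ 4 * N - c0)
      have h6 := mul_le_mul_of_nonneg_left h2 (by linarith : (0 : ℝ) ≤ 2 * c0 - 4 * N)
      have hh := Height.logHeight_nonneg ![t, 1]
      have e1 : (4 * (N : ℝ) - c0) * ((2 + ε / 2) * Height.logHeight ![t, 1] + CR) +
          (2 * c0 - 4 * N) * (Height.logHeight ![t, 1] + CL) =
          4 * (N * Height.logHeight ![t, 1]) + (4 * N - c0) * (ε / 2 * Height.logHeight ![t, 1]) +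
          ((4 * N - c0) * CR + (2 * c0 - 4 * N) * CL) := by ring
      have h7 : (4 * (N : ℝ) - c0) * (ε / 2 * Height.logHeight ![t, 1]) ≤
          (2 * N) * (ε / 2 * Height.logHeight ![t, 1]) :=
        mul_le_mul_of_nonneg_right (by linarith) (by positivity)
      have e2 : (2 * (N : ℝ)) * (ε / 2 * Height.logHeight ![t, 1]) =
        ε * (N * Height.logHeight ![t, 1]) := by ring
      have e3 : (4 + ε) * (N * Height.logHeight ![t, 1]) =
        4 * (N * Height.logHeight ![t, 1]) + ε * (N * Height.logHeight ![t, 1]) := by ring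
      rw [e3]
      linarith
  obtain ⟨C2, hC20, hC2⟩ := hmain
  set g : k → ℝ := fun t => Psi S q R (fun j => eval t (P j)) -
    (4 + ε) * Height.logHeight (fun j => eval t (P j)) with hg
  refine ⟨(4 + ε) * |CH| + C2 + |C1| + ∑ t ∈ Z, |g t|, fun t hRt hdt => ?_⟩
  have hZ0 : 0 ≤ ∑ t ∈ Z, |g t| := Finset.sum_nonneg fun _ _ => abs_nonneg _
  have hCH0 := abs_nonneg CH
  have hC10 := abs_nonneg C1
  have h44 : 0 ≤ (4 + ε) * |CH| := by positivity
  by_cases htZ : t ∈ Z
  · have h1 := Finset.single_le_sum (f := fun t => |g t|) (fun _ _ => abs_nonneg _) htZ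
    have h2 := le_abs_self (g t)
    have h3 : g t ≤ ∑ t ∈ Z, |g t| := h2.trans h1
    simp only [hg] at h3
    linarith
  · obtain ⟨hty, β, hβ⟩ := hloc t hRt hdt
    have h1 := hC2 t htZ hty β
    have h2 := hCH t
    have h3 := le_abs_self CH
    have h4 := le_abs_self C1
    have h5 : (4 + ε) * (N * Height.logHeight ![t, 1]) ≤
        (4 + ε) * (Height.logHeight (fun j => eval t (P j)) + |CH|) :=
      mul_le_mul_of_nonneg_left (by linarith) (by positivity)
    rw [mul_add] at h5
    linarith

end core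

end Pool.Agent.N830.VR
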