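import Mathlib
import Pool.Agent.N830.VR.G2

/-!
Rational curves of `Sym² ℙ¹`: the inequality.
-/

set_option autoImplicit false
set_option linter.unusedSectionVars false

namespace Pool.Agent.N830.VR

open Polynomial
open Pool.Agent.N830.VQ (det2 fa)
open Pool.Agent.W180.OP (Pl av wt nrm nrm_pos le_nrm wt_nonneg nrm_le exists_nrm)
open Pool.Agent.R405 (Good exists_big)

variable {k K : Type} [Field k] [NumberField k] [Field K] [NumberField K] [Algebra k K]

/-- the case where `∞` is generic, `D` over any number field -/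
theorem good (hGLOB : S_GLOB) (hHT : S_HT) (hUP : S_UP) (hROTH : S_ROTH) (hNEAR : S_NEAR)
    (hLI1 : S_LI1) {q : ℕ} (a : Fin q → Fin 2 → K)
    (ha : ∀ i, a i ≠ 0) (hd : ∀ i j, i ≠ j → a i 0 * a j 1 ≠ a i 1 * a j 0)
    (R : (Fin 3 → k) → k)
    (hR : ∀ P : Fin 3 → k, algebraMap k K (R P) = ∏ i, fa (fun j => algebraMap k K (P j)) (a i))
    (P : Fin 3 → k[X]) {N : ℕ} (hN : 1 ≤ N) (hdeg : ∀ j, (P j).natDegree ≤ N)
    (hNZ : NoZero P) (hRR : RR P ≠ 0) (hinf1 : R (fun j => (P j).coeff N) ≠ 0)
    (hinf2 : di (fun j => (P j).coeff N) ≠ 0)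
    (S : Finset (Pl k)) (ε : ℝ) (hε : 0 < ε) :
    ∃ C : ℝ, ∀ t : k, R (fun j => eval t (P j)) ≠ 0 → di (fun j => eval t (P j)) ≠ 0 →
      Psi S q R (fun j => eval t (P j)) ≤
        (4 + ε) * Height.logHeight (fun j => eval t (P j)) + C := by
  classical
  let L := SplittingField (TT (ex K P) a)
  have : NumberField L := NumberField.of_module_finite K L
  obtain ⟨M, hM1, hM2, hi, ⟨φ⟩⟩ := exists_big L
  have : NumberField M := ⟨⟩
  let _ : Algebra K M := (φ.comp (algebraMap K L)).toAlgebra
  let _ : Algebra k M := ((φ.comp (algebraMap K L)).comp (algebraMap k K)).toAlgebra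
  have : IsScalarTower k K M := IsScalarTower.of_algebraMap_eq fun _ => rfl
  set a' : Fin q → Fin 2 → M := fun i l => algebraMap K M (a i l) with ha'def
  have ha' : ∀ i, a' i ≠ 0 := by
    intro i h
    apply ha i
    funext l
    have := congrFun h l
    simpa [ha'def] using this
  have hd' : ∀ i j, i ≠ j → det2 (a' i) (a' j) ≠ 0 := by
    intro i j hij h
    apply hd i j hij
    apply (algebraMap K M).injective
    rw [map_mul, map_mul]
    exact sub_eq_zero.1 h
  have hR' : ∀ P : Fin 3 → k, algebraMap k M (R P) =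
      ∏ i, fa (fun j => algebraMap k M (P j)) (a' i) := by
    intro P
    rw [IsScalarTower.algebraMap_apply k K M, hR, map_prod]
    refine Finset.prod_congr rfl fun i _ => ?_
    simp only [fa, ha'def, map_add, map_mul, map_pow]
    simp only [← IsScalarTower.algebraMap_apply k K M]
  have hT : TT (ex M P) a' = (TT (ex K P) a).map (algebraMap K M) := by
    have e : ∀ j, ex M P j = (ex K P j).map (algebraMap K M) := by
      intro j
      rw [ex, ex, Polynomial.map_map, ← IsScalarTower.algebraMap_eq]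
    simp only [TT, pv, pd, Polynomial.map_mul, Polynomial.map_prod, Polynomial.map_sub,
      Polynomial.map_add, Polynomial.map_pow, Polynomial.map_C, e, ha'def, map_mul, map_pow]
    simp
  have hsplit : (TT (ex M P) a').Splits := by
    rw [hT]
    have h1 : (TT (ex K P) a).map (algebraMap K M) =
        ((TT (ex K P) a).map (algebraMap K L)).map φ := by
      rw [Polynomial.map_map]
      rfl
    rw [h1]
    exact (SplittingField.splits (TT (ex K P) a)).map φ
  exact core hGLOB hHT hUP hROTH hNEAR hLI1 hi a' ha' hd' R hR' P hN hdeg hNZ hRR hinf1 hinf2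
    hsplit S ε hε

/-- scaling of the norm -/
theorem nrm_smul (f : AbsoluteValue k ℝ) {n : ℕ} (hn : 0 < n) (c : k) (x : Fin n → k) :
    nrm f (c • x) = f c * nrm f x := by
  apply le_antisymm
  · refine nrm_le (mul_nonneg (f.nonneg _) (Pool.Agent.W180.OP.nrm_nonneg f x)) fun j => ?_
    rw [Pi.smul_apply, smul_eq_mul, map_mul]
    exact mul_le_mul_of_nonneg_left (le_nrm f x j) (f.nonneg _)
  · obtain ⟨j, hj⟩ := exists_nrm f hn x
    rw [← hj, ← map_mul]
    exact le_nrm f (c • x) j

theorem R_smul {q : ℕ} (a : Fin q → Fin 2 → K) (R : (Fin 3 → k) → k)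
    (hR : ∀ P : Fin 3 → k, algebraMap k K (R P) = ∏ i, fa (fun j => algebraMap k K (P j)) (a i))
    (c : k) (P : Fin 3 → k) : R (c • P) = c ^ q * R P := by
  apply (algebraMap k K).injective
  rw [hR, map_mul, map_pow, hR]
  have h : ∀ i, fa (fun j => algebraMap k K ((c • P) j)) (a i) =
      algebraMap k K c * fa (fun j => algebraMap k K (P j)) (a i) := by
    intro i
    simp only [fa, Pi.smul_apply, smul_eq_mul, map_mul]
    ring
  simp only [h, Finset.prod_mul_distrib, Finset.prod_const, Finset.card_univ, Fintype.card_fin]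

theorem di_smul (c : k) (P : Fin 3 → k) : di (c • P) = c ^ 2 * di P := by
  simp only [di, Pi.smul_apply, smul_eq_mul]
  ring

/-- the left-hand side does not depend on the scaling -/
theorem Psi_smul {q : ℕ} (a : Fin q → Fin 2 → K) (R : (Fin 3 → k) → k)
    (hR : ∀ P : Fin 3 → k, algebraMap k K (R P) = ∏ i, fa (fun j => algebraMap k K (P j)) (a i))
    (S : Finset (Pl k)) {c : k} (hc : c ≠ 0) {P : Fin 3 → k} (hRP : R P ≠ 0) (hdP : di P ≠ 0) :
    Psi S q R (c • P) = Psi S q R P := by
  have hP : P ≠ 0 := by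
    rintro rfl
    apply hdP
    simp [di]
  unfold Psi
  refine Finset.sum_congr rfl fun v _ => ?_
  have h1 := ((av v).pos_iff.2 hc).ne'
  rw [nrm_smul _ (by norm_num), R_smul a R hR, di_smul, map_mul, map_mul, map_pow, map_pow,
    Real.log_mul h1 (nrm_pos _ hP).ne', Real.log_mul (pow_ne_zero _ h1)
    ((av v).pos_iff.2 hRP).ne', Real.log_mul (pow_ne_zero _ h1) ((av v).pos_iff.2 hdP).ne',
    Real.log_pow, Real.log_pow]
  push_cast
  ring

/-- the inequality on a rational curve -/
theorem param (hGLOB : S_GLOB) (hHT : S_HT) (hUP : S_UP) (hROTH : S_ROTH) (hNEAR : S_NEAR)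
    (hLI1 : S_LI1) (hSQ : S_SQ) (hREFL : S_REFL) {q : ℕ} (a : Fin q → Fin 2 → K)
    (ha : ∀ i, a i ≠ 0) (hd : ∀ i j, i ≠ j → a i 0 * a j 1 ≠ a i 1 * a j 0)
    (R : (Fin 3 → k) → k)
    (hR : ∀ P : Fin 3 → k, algebraMap k K (R P) = ∏ i, fa (fun j => algebraMap k K (P j)) (a i))
    (P : Fin 3 → k[X]) (hNZ : NoZero P) (hnc : ∃ j, 1 ≤ (P j).natDegree)
    (S : Finset (Pl k)) (ε : ℝ) (hε : 0 < ε) :
    ∃ C : ℝ, ∀ t : k, R (fun j => eval t (P j)) ≠ 0 → ¬ IsSquare (di (fun j => eval t (P j))) →
      Psi S q R (fun j => eval t (P j)) ≤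
        (4 + ε) * Height.logHeight (fun j => eval t (P j)) + C := by
  classical
  by_cases hex : ∃ c : k, R (fun j => eval c (P j)) ≠ 0 ∧ ¬ IsSquare (di (fun j => eval c (P j)))
  · obtain ⟨c, hRc, hdc⟩ := hex
    -- the degree
    obtain ⟨j0, -, hj0⟩ := Finset.exists_max_image (Finset.univ : Finset (Fin 3))
      (fun j => (P j).natDegree) ⟨0, Finset.mem_univ _⟩
    set N := (P j0).natDegree with hN
    have hN1 : 1 ≤ N := by
      obtain ⟨j, hj⟩ := hnc
      exact hj.trans (hj0 j (Finset.mem_univ _))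
    have hlead : (P j0).coeff N ≠ 0 := by
      rw [hN, coeff_natDegree, Ne, leadingCoeff_eq_zero]
      intro h
      rw [hN, h, natDegree_zero] at hN1
      omega
    obtain ⟨P', hdeg', hco', hNZ', hval⟩ := hREFL k P N c hN1 (fun j => hj0 j (Finset.mem_univ _))
      ⟨j0, hlead⟩ hNZ
    have hco : (fun j => (P' j).coeff N) = fun j => eval c (P j) := funext hco'
    have hd0 : di (fun j => eval c (P j)) ≠ 0 := by
      intro h
      rw [h] at hdc
      exact hdc (IsSquare.zero)
    have hRR : RR P' ≠ 0 := by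
      intro h
      obtain ⟨j1, hj1⟩ : ∃ j, (P' j).coeff N ≠ 0 := by
        by_contra hcon
        push Not at hcon
        apply hd0
        rw [← hco]
        simp [di, hcon]
      have h1 := hSQ k P' hNZ' ⟨j1, hN1.trans (le_natDegree_of_ne_zero hj1)⟩ h
      obtain ⟨s, hs⟩ := h1
      apply hdc
      have h2 := coeff_pd P' hdeg'
      rw [hco] at h2
      have h3 : (pd P').natDegree = N + N := by
        refine le_antisymm (natDegree_pd P' hdeg') (le_natDegree_of_ne_zero ?_)
        rw [h2]
        exact hd0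
      have h4 : (pd P').leadingCoeff = di (fun j => eval c (P j)) := by
        rw [leadingCoeff, h3, h2]
      rw [hs, leadingCoeff_mul] at h4
      exact ⟨s.leadingCoeff, h4.symm⟩
    obtain ⟨C, hC⟩ := good hGLOB hHT hUP hROTH hNEAR hLI1 a ha hd R hR P' hN1 hdeg' hNZ' hRR
      (by rw [hco]; exact hRc) (by rw [hco]; exact hd0) S ε hε
    set g : ℝ := Psi S q R (fun j => eval c (P j)) -
      (4 + ε) * Height.logHeight (fun j => eval c (P j)) with hg
    refine ⟨|C| + |g|, fun t hRt hdt => ?_⟩
    have hC' := le_abs_self C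
    have hg' := le_abs_self g
    have hC0 := abs_nonneg C
    have hg0 := abs_nonneg g
    by_cases htc : t = c
    · subst htc
      linarith
    · have hs : (t - c) ^ N ≠ 0 := pow_ne_zero _ (sub_ne_zero.2 htc)
      have he : (fun j => eval t (P j)) = (t - c) ^ N • fun j => eval (t - c)⁻¹ (P' j) := by
        funext j
        rw [hval t htc j]
        rfl
      have hd1 : di (fun j => eval t (P j)) ≠ 0 := by
        intro h
        rw [h] at hdt
        exact hdt (IsSquare.zero)
      rw [he, R_smul a R hR] at hRt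
      rw [he, di_smul] at hd1
      have hRt' := right_ne_zero_of_mul hRt
      have hd1' := right_ne_zero_of_mul hd1
      have h1 := hC _ hRt' hd1'
      rw [he, Psi_smul a R hR S hs hRt' hd1', Height.logHeight_smul_eq_logHeight _ hs]
      linarith
  · push Not at hex
    exact ⟨0, fun t hRt hdt => absurd (hex t hRt) hdt⟩

end Pool.Agent.N830.VR
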