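import Mathlib
import Pool.Agent.N830.VR.G3

/-!
All quadratic points, off finitely many curves without rational parametrization.
-/

set_option autoImplicit false
set_option linter.unusedSectionVars false

namespace Pool.Agent.N830.VR

open Polynomial
open Pool.Agent.N830.VQ (det2 fa)
open Pool.Agent.W180.OP (Pl av wt nrm nrm_pos le_nrm wt_nonneg nrm_le exists_nrm)
open Pool.Agent.R405 (Good exists_big)

variable {k K : Type} [Field k] [NumberField k] [Field K] [NumberField K] [Algebra k K]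

/-- no nonconstant rational solution -/
def NoCurve (φ : MvPolynomial (Fin 2) k) : Prop :=
  ∀ z : Fin 2 → RatFunc k, MvPolynomial.aeval z φ = 0 → ∀ i, ∃ c : k, z i = RatFunc.C c

theorem di_aff (x : Fin 2 → k) : di ![1, x 0, x 1] = x 0 ^ 2 - 4 * x 1 := by
  simp [di]

/-- the points of a plane curve -/
theorem comps (hGLOB : S_GLOB) (hHT : S_HT) (hUP : S_UP) (hROTH : S_ROTH) (hNEAR : S_NEAR)
    (hLI1 : S_LI1) (hSQ : S_SQ) (hREFL : S_REFL) (hCOVER : S_COVER)
    {q : ℕ} (a : Fin q → Fin 2 → K)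
    (ha : ∀ i, a i ≠ 0) (hd : ∀ i j, i ≠ j → a i 0 * a j 1 ≠ a i 1 * a j 0)
    (R : (Fin 3 → k) → k)
    (hR : ∀ P : Fin 3 → k, algebraMap k K (R P) = ∏ i, fa (fun j => algebraMap k K (P j)) (a i))
    (ε : ℝ) (hε : 0 < ε) (φ : MvPolynomial (Fin 2) k) : φ ≠ 0 →
    ∃ ψ : MvPolynomial (Fin 2) k, ψ ≠ 0 ∧ NoCurve ψ ∧ ∀ S : Finset (Pl k), ∃ C : ℝ,
      ∀ x : Fin 2 → k, MvPolynomial.eval x φ = 0 → MvPolynomial.eval x ψ ≠ 0 →
      R ![1, x 0, x 1] ≠ 0 → ¬ IsSquare (di ![1, x 0, x 1]) →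
      Psi S q R ![1, x 0, x 1] ≤ (4 + ε) * Height.logHeight ![1, x 0, x 1] + C := by
  classical
  induction φ using UniqueFactorizationMonoid.induction_on_prime with
  | h₁ => exact fun h => absurd rfl h
  | h₂ φ hu =>
    intro _
    refine ⟨1, one_ne_zero, fun z hz => ?_, fun S => ⟨0, fun x hx => ?_⟩⟩
    · rw [map_one] at hz
      exact absurd hz one_ne_zero
    · have h1 : IsUnit (MvPolynomial.eval x φ) := hu.map (MvPolynomial.eval x)
      rw [hx] at h1
      exact absurd h1 not_isUnit_zero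
  | h₃ φ p hφ hp ih =>
    intro _
    obtain ⟨ψ, hψ, hψn, hψS⟩ := ih hφ
    by_cases hpn : NoCurve p
    · refine ⟨p * ψ, mul_ne_zero hp.ne_zero hψ, fun z hz => ?_, fun S => ?_⟩
      · rw [map_mul, mul_eq_zero] at hz
        rcases hz with hz | hz
        · exact hpn z hz
        · exact hψn z hz
      · obtain ⟨C, hC⟩ := hψS S
        refine ⟨C, fun x hx hψx hRx hdx => ?_⟩
        rw [map_mul] at hx hψx
        exact hC x ((mul_eq_zero.1 hx).resolve_left (left_ne_zero_of_mul hψx))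
          (right_ne_zero_of_mul hψx) hRx hdx
    · refine ⟨ψ, hψ, hψn, fun S => ?_⟩
      unfold NoCurve at hpn
      push Not at hpn
      obtain ⟨z, hz, i, hzi⟩ := hpn
      obtain ⟨P, hNZ, hnc, Q, hQ⟩ := hCOVER k p hp.irreducible z hz ⟨i, hzi⟩
      obtain ⟨C1, hC1⟩ := hψS S
      obtain ⟨C2, hC2⟩ := param hGLOB hHT hUP hROTH hNEAR hLI1 hSQ hREFL a ha hd R hR P hNZ hnc
        S ε hε
      set g : (Fin 2 → k) → ℝ := fun x => Psi S q R ![1, x 0, x 1] -
        (4 + ε) * Height.logHeight ![1, x 0, x 1] with hg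
      have hg0 : 0 ≤ ∑ x ∈ Q, |g x| := Finset.sum_nonneg fun _ _ => abs_nonneg _
      have h10 := abs_nonneg C1
      have h20 := abs_nonneg C2
      have h11 := le_abs_self C1
      have h21 := le_abs_self C2
      refine ⟨|C1| + |C2| + ∑ x ∈ Q, |g x|, fun x hx hψx hRx hdx => ?_⟩
      by_cases hxQ : x ∈ Q
      · have h1 := Finset.single_le_sum (f := fun x => |g x|) (fun _ _ => abs_nonneg _) hxQ
        have h2 := (le_abs_self (g x)).trans h1
        simp only [hg] at h2
        linarith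
      rw [map_mul, mul_eq_zero] at hx
      rcases hx with hx | hx
      · obtain ⟨t, ht0, ht1, ht2⟩ := hQ x hx hxQ
        have he : (fun j => eval t (P j)) = eval t (P 0) • ![1, x 0, x 1] := by
          funext j
          fin_cases j
          · simp
          · simp [ht1, mul_comm]
          · simp [ht2, mul_comm]
        have hd1 : di ![1, x 0, x 1] ≠ 0 := by
          intro h
          rw [h] at hdx
          exact hdx IsSquare.zero
        have h1 := hC2 t (by
          rw [he, R_smul a R hR]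
          exact mul_ne_zero (pow_ne_zero _ ht0) hRx) (by
          rw [he, di_smul]
          rintro ⟨s, hs⟩
          apply hdx
          refine ⟨s / eval t (P 0), ?_⟩
          field_simp
          linear_combination hs)
        rw [he, Psi_smul a R hR S ht0 hRx hd1, Height.logHeight_smul_eq_logHeight _ ht0] at h1
        linarith
      · have h1 := hC1 x hx hψx hRx hdx
        linarith

/-- all quadratic points -/
theorem final (hAFF : S_AFF) (hGLOB : S_GLOB) (hHT : S_HT) (hUP : S_UP) (hROTH : S_ROTH)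
    (hNEAR : S_NEAR) (hLI1 : S_LI1) (hSQ : S_SQ) (hREFL : S_REFL) (hCOVER : S_COVER)
    {q : ℕ} (a : Fin q → Fin 2 → K)
    (ha : ∀ i, a i ≠ 0) (hd : ∀ i j, i ≠ j → a i 0 * a j 1 ≠ a i 1 * a j 0)
    (R : (Fin 3 → k) → k)
    (hR : ∀ P : Fin 3 → k, algebraMap k K (R P) = ∏ i, fa (fun j => algebraMap k K (P j)) (a i))
    (ε : ℝ) (hε : 0 < ε) :
    ∃ ψ : MvPolynomial (Fin 2) k, ψ ≠ 0 ∧ NoCurve ψ ∧ ∀ S : Finset (Pl k), ∃ C : ℝ,
      ∀ x : Fin 2 → k, MvPolynomial.eval x ψ ≠ 0 →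
      R ![1, x 0, x 1] ≠ 0 → ¬ IsSquare (di ![1, x 0, x 1]) →
      Psi S q R ![1, x 0, x 1] ≤ (4 + ε) * Height.logHeight ![1, x 0, x 1] + C := by
  obtain ⟨φ, hφ, hmain⟩ := hAFF k K q a ha hd R hR ε hε
  obtain ⟨ψ, hψ, hψn, hψS⟩ := comps hGLOB hHT hUP hROTH hNEAR hLI1 hSQ hREFL hCOVER a ha hd R hR
    ε hε φ hφ
  refine ⟨ψ, hψ, hψn, fun S => ?_⟩
  obtain ⟨C1, hC1⟩ := hmain S
  obtain ⟨C2, hC2⟩ := hψS S
  have h11 := le_abs_self C1
  have h21 := le_abs_self C2
  have h10 := abs_nonneg C1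
  have h20 := abs_nonneg C2
  refine ⟨|C1| + |C2|, fun x hψx hRx hdx => ?_⟩
  by_cases hx : MvPolynomial.eval x φ = 0
  · have := hC2 x hx hψx hRx hdx
    linarith
  · have h1 := hC1 x hx hRx (by
      intro h
      rw [di_aff, h] at hdx
      exact hdx IsSquare.zero)
    unfold Psi
    simp only [di_aff]
    linarith

end Pool.Agent.N830.VR
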